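import Mathlib

/-! Turan's construction is encoded by a colouring of the pairs with three colours. -/

set_option autoImplicit false
open Finset

namespace Pool.Agent.W38.TC.Lower

/-- colour of a pair from the parts of its vertices -/
def col (i j : Fin 3) : Fin 3 := if i = j then i else if j = i + 1 then j else i

/-- the rule -/
def R (a b c : Fin 3) : Bool :=
  (decide (a ≠ b) && decide (b ≠ c) && decide (a ≠ c)) || (decide (b = c) && decide (b = a + 1)) ||
    (decide (a = c) && decide (a = b + 1)) || (decide (a = b) && decide (a = c + 1))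

/-- edges in terms of the parts -/
def E (i j l : Fin 3) : Bool := R (col i j) (col i l) (col j l)

theorem col_symm : ∀ i j, col i j = col j i := by decide
theorem R_swap1 : ∀ a b c, R a b c = R b a c := by decide
theorem R_swap2 : ∀ a b c, R a b c = R a c b := by decide
theorem E_four : ∀ i j l m, ¬ (E i j l = true ∧ E i j m = true ∧ E i l m = true ∧ E j l m = true) := by
  decide
theorem E_swap1 : ∀ i j l, E i j l = E j i l := by decide
theorem E_swap2 : ∀ i j l, E i j l = E i l j := by decide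
theorem E_count : (∑ i : Fin 3, ∑ j : Fin 3, ∑ l : Fin 3, (if E i j l = true then 1 else 0)) = 15 := by
  decide

variable {n : ℕ}

/-- the part of a vertex -/
def p (x : Fin n) : Fin 3 := ⟨x.val % 3, Nat.mod_lt _ (by norm_num)⟩

theorem sum_range3 (g : ℕ → ℕ) (k : ℕ) :
    ∑ x ∈ range (3 * k), g (x % 3) = k * (g 0 + g 1 + g 2) := by
  induction k with
  | zero => simp
  | succ k ih =>
    have e : 3 * (k + 1) = 3 * k + 1 + 1 + 1 := by ring
    rw [e, sum_range_succ, sum_range_succ, sum_range_succ, ih]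
    have a0 : (3 * k) % 3 = 0 := by omega
    have a1 : (3 * k + 1) % 3 = 1 := by omega
    have a2 : (3 * k + 1 + 1) % 3 = 2 := by omega
    rw [a0, a1, a2]
    ring

theorem sum_p (g : Fin 3 → ℕ) : n / 3 * ∑ i, g i ≤ ∑ x : Fin n, g (p x) := by
  set G : ℕ → ℕ := fun x => g ⟨x % 3, Nat.mod_lt _ (by norm_num)⟩ with hG
  have h1 : ∑ x : Fin n, g (p x) = ∑ x ∈ range n, G (x % 3) := by
    rw [← Fin.sum_univ_eq_sum_range (fun x => G (x % 3)) n]
    refine sum_congr rfl fun x _ => ?_
    rw [hG]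
    unfold p
    simp only [Nat.mod_mod]
  have h2 := sum_range3 G (n / 3)
  have h3 : ∑ x ∈ range (3 * (n / 3)), G (x % 3) ≤ ∑ x ∈ range n, G (x % 3) :=
    sum_le_sum_of_subset (range_subset_range.mpr (by omega))
  have h4 : ∑ i, g i = G 0 + G 1 + G 2 := by
    rw [Fin.sum_univ_three, hG]
    rfl
  rw [h1, h4, ← h2]
  exact h3

open scoped Classical

/-- Turan's 3-graph -/
noncomputable def H : Finset (Finset (Fin n)) :=
  univ.filter fun s => ∃ x y z, x ≠ y ∧ x ≠ z ∧ y ≠ z ∧ s = {x, y, z} ∧ E (p x) (p y) (p z) = true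

theorem H_card {s : Finset (Fin n)} (h : s ∈ (H : Finset (Finset (Fin n)))) :
    s.card = 3 := by
  unfold H at h
  rw [mem_filter] at h
  obtain ⟨_, x, y, z, hxy, hxz, hyz, rfl, _⟩ := h
  rw [card_insert_of_notMem, card_insert_of_notMem, card_singleton] <;> simp [hxy, hxz, hyz]

theorem mem_H {x y z : Fin n} (hxy : x ≠ y) (hxz : x ≠ z) (hyz : y ≠ z) :
    ({x, y, z} : Finset (Fin n)) ∈ (H : Finset (Finset (Fin n))) ↔
      E (p x) (p y) (p z) = true := by
  unfold H
  rw [mem_filter]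
  constructor
  · rintro ⟨_, a, b, c, hab, hac, hbc, he, h⟩
    have ha : a ∈ ({x, y, z} : Finset (Fin n)) := by rw [he]; simp
    have hb : b ∈ ({x, y, z} : Finset (Fin n)) := by rw [he]; simp
    have hc : c ∈ ({x, y, z} : Finset (Fin n)) := by rw [he]; simp
    simp only [mem_insert, mem_singleton] at ha hb hc
    have s1 := E_swap1
    have s2 := E_swap2
    rcases ha with rfl | rfl | rfl <;> rcases hb with rfl | rfl | rfl <;>
      rcases hc with rfl | rfl | rfl <;>
      first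
        | exact absurd rfl hab
        | exact absurd rfl hac
        | exact absurd rfl hbc
        | exact h
        | (rw [s2]; exact h)
        | (rw [s1]; exact h)
        | (rw [s1, s2]; exact h)
        | (rw [s2, s1]; exact h)
        | (rw [s1, s2, s1]; exact h)
  · intro h
    exact ⟨mem_univ _, x, y, z, hxy, hxz, hyz, rfl, h⟩

theorem H_free (S : Finset (Fin n)) (hS : S.card = 4) :
    ∃ s ⊆ S, s.card = 3 ∧ s ∉ (H : Finset (Finset (Fin n))) := by
  by_contra hcon
  push Not at hcon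
  obtain ⟨a, S', ha, rfl, hS'⟩ := card_eq_succ.mp hS
  obtain ⟨b, c, d, hbc, hbd, hcd, rfl⟩ := card_eq_three.mp hS'
  simp only [mem_insert, mem_singleton, not_or] at ha
  obtain ⟨hab, hac, had⟩ := ha
  have key : ∀ x y z : Fin n, x ≠ y → x ≠ z → y ≠ z →
      ({x, y, z} : Finset (Fin n)) ⊆ {a, b, c, d} → E (p x) (p y) (p z) = true := by
    intro x y z hxy hxz hyz hsub
    rw [← mem_H hxy hxz hyz]
    refine hcon _ hsub ?_
    rw [card_insert_of_notMem, card_insert_of_notMem, card_singleton] <;> simp [hxy, hxz, hyz]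
  refine E_four (p a) (p b) (p c) (p d) ⟨key a b c hab hac hbc ?_, key a b d hab had hbd ?_,
    key a c d hac had hcd ?_, key b c d hbc hbd hcd ?_⟩
  all_goals
    intro v hv
    simp only [mem_insert, mem_singleton] at hv ⊢
    tauto

theorem H_enc (s : Finset (Fin n)) (f : Fin n → Fin n) (hs : s.card = 3)
    (hf : Set.InjOn f (s : Set (Fin n)))
    (h : ∀ x ∈ s, ∀ y ∈ s, x ≠ y → col (p (f x)) (p (f y)) = col (p x) (p y)) :
    s ∈ (H : Finset (Finset (Fin n))) ↔ s.image f ∈ (H : Finset (Finset (Fin n))) := by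
  obtain ⟨x, y, z, hxy, hxz, hyz, rfl⟩ := card_eq_three.mp hs
  have mx : x ∈ ({x, y, z} : Finset (Fin n)) := by simp
  have my : y ∈ ({x, y, z} : Finset (Fin n)) := by simp
  have mz : z ∈ ({x, y, z} : Finset (Fin n)) := by simp
  have hxy' : f x ≠ f y := fun e => hxy (hf (by simp) (by simp) e)
  have hxz' : f x ≠ f z := fun e => hxz (hf (by simp) (by simp) e)
  have hyz' : f y ≠ f z := fun e => hyz (hf (by simp) (by simp) e)
  rw [image_insert, image_insert, image_singleton, mem_H hxy hxz hyz, mem_H hxy' hxz' hyz']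
  unfold E
  rw [h x mx y my hxy, h x mx z mz hxz, h y my z mz hyz]

theorem six_ge : (∑ x : Fin n, ∑ y : Fin n, ∑ z : Fin n,
    (if x ≠ y ∧ x ≠ z ∧ y ≠ z ∧ E (p x) (p y) (p z) = true then 1 else 0))
      ≤ 6 * (H : Finset (Finset (Fin n))).card := by
  set F : Finset (Fin n × Fin n × Fin n) :=
    univ.filter fun t => t.1 ≠ t.2.1 ∧ t.1 ≠ t.2.2 ∧ t.2.1 ≠ t.2.2 ∧
      E (p t.1) (p t.2.1) (p t.2.2) = true with hF
  have h1 : (∑ x : Fin n, ∑ y : Fin n, ∑ z : Fin n,
      (if x ≠ y ∧ x ≠ z ∧ y ≠ z ∧ E (p x) (p y) (p z) = true then 1 else 0)) = F.card := by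
    rw [hF, card_filter, Fintype.sum_prod_type]
    refine sum_congr rfl fun x _ => ?_
    rw [Fintype.sum_prod_type]
  rw [h1]
  refine card_le_mul_card_image_of_maps_to (f := fun t : Fin n × Fin n × Fin n =>
    ({t.1, t.2.1, t.2.2} : Finset (Fin n))) ?_ 6 ?_
  · intro t ht
    rw [hF, mem_filter] at ht
    obtain ⟨_, g1, g2, g3, g4⟩ := ht
    exact (mem_H g1 g2 g3).mpr g4
  · intro s hs
    obtain ⟨a, b, c, hab, hac, hbc, rfl⟩ := card_eq_three.mp (H_card hs)
    refine le_trans (card_le_card (t := {(a, b, c), (a, c, b), (b, a, c), (b, c, a), (c, a, b),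
      (c, b, a)}) ?_) card_le_six
    rintro ⟨x, y, z⟩ ht
    rw [mem_filter, hF, mem_filter] at ht
    obtain ⟨⟨_, g1, g2, g3, _⟩, g5⟩ := ht
    have hx : x ∈ ({a, b, c} : Finset (Fin n)) := by rw [← g5]; simp
    have hy : y ∈ ({a, b, c} : Finset (Fin n)) := by rw [← g5]; simp
    have hz : z ∈ ({a, b, c} : Finset (Fin n)) := by rw [← g5]; simp
    simp only [mem_insert, mem_singleton] at hx hy hz
    simp only at g1 g2 g3
    rcases hx with rfl | rfl | rfl <;> rcases hy with rfl | rfl | rfl <;>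
      rcases hz with rfl | rfl | rfl <;>
      first
        | exact absurd rfl g1
        | exact absurd rfl g2
        | exact absurd rfl g3
        | simp

theorem H_count : 15 * (n / 3) ^ 3 ≤ 6 * (H : Finset (Finset (Fin n))).card + 3 * n ^ 2 := by
  have h0 := six_ge (n := n)
  have hall : 15 * (n / 3) ^ 3 ≤ (∑ x : Fin n, ∑ y : Fin n, ∑ z : Fin n,
      (if E (p x) (p y) (p z) = true then 1 else 0)) := by
    have e1 : ∀ x y : Fin n, n / 3 * (∑ l, (if E (p x) (p y) l = true then 1 else 0))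
        ≤ ∑ z : Fin n, (if E (p x) (p y) (p z) = true then 1 else 0) := fun x y =>
      sum_p (fun l => if E (p x) (p y) l = true then 1 else 0)
    have e2 : ∀ x : Fin n, n / 3 * (∑ j, n / 3 * ∑ l, (if E (p x) j l = true then 1 else 0))
        ≤ ∑ y : Fin n, n / 3 * ∑ l, (if E (p x) (p y) l = true then 1 else 0) := fun x =>
      sum_p (fun j => n / 3 * ∑ l, (if E (p x) j l = true then 1 else 0))
    have e3 : n / 3 * (∑ i, n / 3 * ∑ j, n / 3 * ∑ l, (if E i j l = true then 1 else 0))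
        ≤ ∑ x : Fin n, n / 3 * ∑ j, n / 3 * ∑ l, (if E (p x) j l = true then 1 else 0) :=
      sum_p (fun i => n / 3 * ∑ j, n / 3 * ∑ l, (if E i j l = true then 1 else 0))
    calc 15 * (n / 3) ^ 3
        = n / 3 * (∑ i, n / 3 * ∑ j, n / 3 * ∑ l, (if E i j l = true then 1 else 0)) := by
          simp only [← mul_sum]
          rw [E_count]
          ring
      _ ≤ _ := e3
      _ ≤ ∑ x : Fin n, ∑ y : Fin n, n / 3 * ∑ l, (if E (p x) (p y) l = true then 1 else 0) :=
          sum_le_sum fun x _ => e2 x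
      _ ≤ _ := sum_le_sum fun x _ => sum_le_sum fun y _ => e1 x y
  have hsplit : (∑ x : Fin n, ∑ y : Fin n, ∑ z : Fin n,
      (if E (p x) (p y) (p z) = true then 1 else 0)) ≤
      (∑ x : Fin n, ∑ y : Fin n, ∑ z : Fin n,
        (if x ≠ y ∧ x ≠ z ∧ y ≠ z ∧ E (p x) (p y) (p z) = true then 1 else 0))
      + (∑ x : Fin n, ∑ y : Fin n, ∑ z : Fin n, (if y = x then 1 else 0))
      + (∑ x : Fin n, ∑ y : Fin n, ∑ z : Fin n, (if z = x then 1 else 0))
      + (∑ x : Fin n, ∑ y : Fin n, ∑ z : Fin n, (if z = y then 1 else 0)) := by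
    simp only [← sum_add_distrib]
    refine sum_le_sum fun x _ => sum_le_sum fun y _ => sum_le_sum fun z _ => ?_
    by_cases h1 : y = x
    · rw [if_pos h1]
      split_ifs <;> omega
    · by_cases h2 : z = x
      · rw [if_pos h2]
        split_ifs <;> omega
      · by_cases h3 : z = y
        · rw [if_pos h3]
          split_ifs <;> omega
        · simp [h1, h2, h3, Ne.symm h1, Ne.symm h2, Ne.symm h3]
  have k1 : (∑ x : Fin n, ∑ y : Fin n, ∑ z : Fin n, (if y = x then 1 else 0)) = n ^ 2 := by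
    have : ∀ x : Fin n, (∑ y : Fin n, ∑ z : Fin n, (if y = x then 1 else 0)) = n := fun x => by
      rw [sum_comm]
      simp
    rw [sum_congr rfl fun x _ => this x]
    simp [pow_two]
  have k2 : (∑ x : Fin n, ∑ y : Fin n, ∑ z : Fin n, (if z = x then 1 else 0)) = n ^ 2 := by
    simp [pow_two]
  have k3 : (∑ x : Fin n, ∑ y : Fin n, ∑ z : Fin n, (if z = y then 1 else 0)) = n ^ 2 := by
    simp [pow_two]
  omega

theorem H_large : 5 / 54 * (n : ℝ) ^ 3 - 2 * (n : ℝ) ^ 2
    ≤ ((H : Finset (Finset (Fin n))).card : ℝ) := by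
  have h := H_count (n := n)
  have h1 : 15 * ((n / 3 : ℕ) : ℝ) ^ 3 ≤ 6 * ((H : Finset (Finset (Fin n))).card : ℝ) + 3 * (n : ℝ) ^ 2 := by
    exact_mod_cast h
  rcases Nat.lt_or_ge n 2 with hn | hn
  · have h2 : (0 : ℝ) ≤ ((H : Finset (Finset (Fin n))).card : ℝ) := Nat.cast_nonneg _
    have h3 : n = 0 ∨ n = 1 := by omega
    have h4 : 5 / 54 * (n : ℝ) ^ 3 - 2 * (n : ℝ) ^ 2 ≤ 0 := by
      rcases h3 with h3 | h3 <;> rw [h3] <;> norm_num
    exact le_trans h4 h2
  · have h2 : (n : ℝ) - 2 ≤ 3 * ((n / 3 : ℕ) : ℝ) := by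
      have : n ≤ 3 * (n / 3) + 2 := by omega
      have h3 : (n : ℝ) ≤ 3 * ((n / 3 : ℕ) : ℝ) + 2 := by exact_mod_cast this
      linarith
    have hn2 : (2 : ℝ) ≤ n := by exact_mod_cast hn
    have h3 : ((n : ℝ) - 2) ^ 3 ≤ (3 * ((n / 3 : ℕ) : ℝ)) ^ 3 :=
      pow_le_pow_left₀ (by linarith) h2 3
    nlinarith [sq_nonneg (n : ℝ)]

end Pool.Agent.W38.TC.Lower
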