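import Pool.Agent.W38.TC.Cert4a
import Pool.Agent.W38.TC.Cert4b
import Pool.Agent.W38.TC.Cert4c
import Pool.Agent.W38.TC.Cert4d
import Pool.Agent.W38.TC.Cert4e
import Pool.Agent.W38.TC.Cert4f
import Pool.Agent.W38.TC.Cert4g
import Pool.Agent.W38.TC.Cert4h
import Pool.Agent.W38.TC.Cert4i
import Pool.Agent.W38.TC.Cert4j
import Pool.Agent.W38.TC.Cert4k
import Pool.Agent.W38.TC.Cert4l
import Pool.Agent.W38.TC.Cert4m
import Pool.Agent.W38.TC.Cert4n
import Pool.Agent.W38.TC.Cert4o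
import Pool.Agent.W38.TC.R30
import Pool.Agent.W38.TC.R46
import Pool.Agent.W38.TC.R58
import Pool.Agent.W38.TC.R94
import Pool.Agent.W38.TC.R110
import Pool.Agent.W38.TC.R118
import Pool.Agent.W38.TC.R124
import Pool.Agent.W38.TC.R126
import Pool.Agent.W38.TC.R142
import Pool.Agent.W38.TC.R150
import Pool.Agent.W38.TC.R158
import Pool.Agent.W38.TC.R162
import Pool.Agent.W38.TC.R166
import Pool.Agent.W38.TC.R172
import Pool.Agent.W38.TC.R174
import Pool.Agent.W38.TC.R178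
import Pool.Agent.W38.TC.R179
import Pool.Agent.W38.TC.R182
import Pool.Agent.W38.TC.R187
import Pool.Agent.W38.TC.R188
import Pool.Agent.W38.TC.R189
import Pool.Agent.W38.TC.R190
import Pool.Agent.W38.TC.R230
import Pool.Agent.W38.TC.R246
import Pool.Agent.W38.TC.R252
import Pool.Agent.W38.TC.R254
import Pool.Agent.W38.TC.R358
import Pool.Agent.W38.TC.R366
import Pool.Agent.W38.TC.R374
import Pool.Agent.W38.TC.R382
import Pool.Agent.W38.TC.R430
import Pool.Agent.W38.TC.R431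
import Pool.Agent.W38.TC.R446

/-! The bound for all rules. -/

set_option autoImplicit false
set_option maxRecDepth 100000

namespace Pool.Agent.W38.TC

open Pool.Agent.H122R2.FdF Pool.Agent.W38.TO

open scoped Classical

/-- the rule `M` has a certificate -/
def Good (M : ℕ) : Prop :=
  (∃ B T L D K κ X1 X2 : ℕ, 0 < K ∧ chkC M B T L D K κ X1 X2 = true) ∨
  (∃ (B : ℕ) (T : ℕ → ℕ) (TK LK r K κ X : ℕ), 262144 ≤ K ∧ CertC5 M B T TK LK r K κ X)

theorem g0 : Good 0 := Or.inl ⟨_, _, _, _, _, _, _, _, by norm_num, c0⟩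
theorem g1 : Good 1 := Or.inl ⟨_, _, _, _, _, _, _, _, by norm_num, c1⟩
theorem g2 : Good 2 := Or.inl ⟨_, _, _, _, _, _, _, _, by norm_num, c2⟩
theorem g3 : Good 3 := Or.inl ⟨_, _, _, _, _, _, _, _, by norm_num, c3⟩
theorem g6 : Good 6 := Or.inl ⟨_, _, _, _, _, _, _, _, by norm_num, c6⟩
theorem g7 : Good 7 := Or.inl ⟨_, _, _, _, _, _, _, _, by norm_num, c7⟩
theorem g9 : Good 9 := Or.inl ⟨_, _, _, _, _, _, _, _, by norm_num, c9⟩
theorem g10 : Good 10 := Or.inl ⟨_, _, _, _, _, _, _, _, by norm_num, c10⟩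
theorem g11 : Good 11 := Or.inl ⟨_, _, _, _, _, _, _, _, by norm_num, c11⟩
theorem g12 : Good 12 := Or.inl ⟨_, _, _, _, _, _, _, _, by norm_num, c12⟩
theorem g13 : Good 13 := Or.inl ⟨_, _, _, _, _, _, _, _, by norm_num, c13⟩
theorem g14 : Good 14 := Or.inl ⟨_, _, _, _, _, _, _, _, by norm_num, c14⟩
theorem g15 : Good 15 := Or.inl ⟨_, _, _, _, _, _, _, _, by norm_num, c15⟩
theorem g16 : Good 16 := Or.inl ⟨_, _, _, _, _, _, _, _, by norm_num, c16⟩
theorem g17 : Good 17 := Or.inl ⟨_, _, _, _, _, _, _, _, by norm_num, c17⟩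
theorem g18 : Good 18 := Or.inl ⟨_, _, _, _, _, _, _, _, by norm_num, c18⟩
theorem g19 : Good 19 := Or.inl ⟨_, _, _, _, _, _, _, _, by norm_num, c19⟩
theorem g22 : Good 22 := Or.inl ⟨_, _, _, _, _, _, _, _, by norm_num, c22⟩
theorem g23 : Good 23 := Or.inl ⟨_, _, _, _, _, _, _, _, by norm_num, c23⟩
theorem g25 : Good 25 := Or.inl ⟨_, _, _, _, _, _, _, _, by norm_num, c25⟩
theorem g26 : Good 26 := Or.inl ⟨_, _, _, _, _, _, _, _, by norm_num, c26⟩
theorem g27 : Good 27 := Or.inl ⟨_, _, _, _, _, _, _, _, by norm_num, c27⟩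
theorem g28 : Good 28 := Or.inl ⟨_, _, _, _, _, _, _, _, by norm_num, c28⟩
theorem g29 : Good 29 := Or.inl ⟨_, _, _, _, _, _, _, _, by norm_num, c29⟩
theorem g30 : Good 30 := Or.inr ⟨_, _, _, _, _, _, _, _, by norm_num, R30.cert⟩
theorem g31 : Good 31 := Or.inl ⟨_, _, _, _, _, _, _, _, by norm_num, c31⟩
theorem g40 : Good 40 := Or.inl ⟨_, _, _, _, _, _, _, _, by norm_num, c40⟩
theorem g41 : Good 41 := Or.inl ⟨_, _, _, _, _, _, _, _, by norm_num, c41⟩
theorem g42 : Good 42 := Or.inl ⟨_, _, _, _, _, _, _, _, by norm_num, c42⟩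
theorem g43 : Good 43 := Or.inl ⟨_, _, _, _, _, _, _, _, by norm_num, c43⟩
theorem g46 : Good 46 := Or.inr ⟨_, _, _, _, _, _, _, _, by norm_num, R46.cert⟩
theorem g47 : Good 47 := Or.inl ⟨_, _, _, _, _, _, _, _, by norm_num, c47⟩
theorem g56 : Good 56 := Or.inl ⟨_, _, _, _, _, _, _, _, by norm_num, c56⟩
theorem g57 : Good 57 := Or.inl ⟨_, _, _, _, _, _, _, _, by norm_num, c57⟩
theorem g58 : Good 58 := Or.inr ⟨_, _, _, _, _, _, _, _, by norm_num, R58.cert⟩
theorem g59 : Good 59 := Or.inl ⟨_, _, _, _, _, _, _, _, by norm_num, c59⟩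
theorem g62 : Good 62 := Or.inl ⟨_, _, _, _, _, _, _, _, by norm_num, c62⟩
theorem g63 : Good 63 := Or.inl ⟨_, _, _, _, _, _, _, _, by norm_num, c63⟩
theorem g65 : Good 65 := Or.inl ⟨_, _, _, _, _, _, _, _, by norm_num, c65⟩
theorem g67 : Good 67 := Or.inl ⟨_, _, _, _, _, _, _, _, by norm_num, c67⟩
theorem g68 : Good 68 := Or.inl ⟨_, _, _, _, _, _, _, _, by norm_num, c68⟩
theorem g69 : Good 69 := Or.inl ⟨_, _, _, _, _, _, _, _, by norm_num, c69⟩
theorem g70 : Good 70 := Or.inl ⟨_, _, _, _, _, _, _, _, by norm_num, c70⟩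
theorem g71 : Good 71 := Or.inl ⟨_, _, _, _, _, _, _, _, by norm_num, c71⟩
theorem g75 : Good 75 := Or.inl ⟨_, _, _, _, _, _, _, _, by norm_num, c75⟩
theorem g76 : Good 76 := Or.inl ⟨_, _, _, _, _, _, _, _, by norm_num, c76⟩
theorem g77 : Good 77 := Or.inl ⟨_, _, _, _, _, _, _, _, by norm_num, c77⟩
theorem g78 : Good 78 := Or.inl ⟨_, _, _, _, _, _, _, _, by norm_num, c78⟩
theorem g79 : Good 79 := Or.inl ⟨_, _, _, _, _, _, _, _, by norm_num, c79⟩
theorem g81 : Good 81 := Or.inl ⟨_, _, _, _, _, _, _, _, by norm_num, c81⟩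
theorem g83 : Good 83 := Or.inl ⟨_, _, _, _, _, _, _, _, by norm_num, c83⟩
theorem g84 : Good 84 := Or.inl ⟨_, _, _, _, _, _, _, _, by norm_num, c84⟩
theorem g85 : Good 85 := Or.inl ⟨_, _, _, _, _, _, _, _, by norm_num, c85⟩
theorem g86 : Good 86 := Or.inl ⟨_, _, _, _, _, _, _, _, by norm_num, c86⟩
theorem g87 : Good 87 := Or.inl ⟨_, _, _, _, _, _, _, _, by norm_num, c87⟩
theorem g91 : Good 91 := Or.inl ⟨_, _, _, _, _, _, _, _, by norm_num, c91⟩
theorem g92 : Good 92 := Or.inl ⟨_, _, _, _, _, _, _, _, by norm_num, c92⟩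
theorem g93 : Good 93 := Or.inl ⟨_, _, _, _, _, _, _, _, by norm_num, c93⟩
theorem g94 : Good 94 := Or.inr ⟨_, _, _, _, _, _, _, _, by norm_num, R94.cert⟩
theorem g95 : Good 95 := Or.inl ⟨_, _, _, _, _, _, _, _, by norm_num, c95⟩
theorem g97 : Good 97 := Or.inl ⟨_, _, _, _, _, _, _, _, by norm_num, c97⟩
theorem g98 : Good 98 := Or.inl ⟨_, _, _, _, _, _, _, _, by norm_num, c98⟩
theorem g99 : Good 99 := Or.inl ⟨_, _, _, _, _, _, _, _, by norm_num, c99⟩
theorem g100 : Good 100 := Or.inl ⟨_, _, _, _, _, _, _, _, by norm_num, c100⟩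
theorem g101 : Good 101 := Or.inl ⟨_, _, _, _, _, _, _, _, by norm_num, c101⟩
theorem g102 : Good 102 := Or.inl ⟨_, _, _, _, _, _, _, _, by norm_num, c102⟩
theorem g103 : Good 103 := Or.inl ⟨_, _, _, _, _, _, _, _, by norm_num, c103⟩
theorem g104 : Good 104 := Or.inl ⟨_, _, _, _, _, _, _, _, by norm_num, c104⟩
theorem g105 : Good 105 := Or.inl ⟨_, _, _, _, _, _, _, _, by norm_num, c105⟩
theorem g106 : Good 106 := Or.inl ⟨_, _, _, _, _, _, _, _, by norm_num, c106⟩
theorem g107 : Good 107 := Or.inl ⟨_, _, _, _, _, _, _, _, by norm_num, c107⟩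
theorem g108 : Good 108 := Or.inl ⟨_, _, _, _, _, _, _, _, by norm_num, c108⟩
theorem g109 : Good 109 := Or.inl ⟨_, _, _, _, _, _, _, _, by norm_num, c109⟩
theorem g110 : Good 110 := Or.inr ⟨_, _, _, _, _, _, _, _, by norm_num, R110.cert⟩
theorem g111 : Good 111 := Or.inl ⟨_, _, _, _, _, _, _, _, by norm_num, c111⟩
theorem g113 : Good 113 := Or.inl ⟨_, _, _, _, _, _, _, _, by norm_num, c113⟩
theorem g114 : Good 114 := Or.inl ⟨_, _, _, _, _, _, _, _, by norm_num, c114⟩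
theorem g115 : Good 115 := Or.inl ⟨_, _, _, _, _, _, _, _, by norm_num, c115⟩
theorem g116 : Good 116 := Or.inl ⟨_, _, _, _, _, _, _, _, by norm_num, c116⟩
theorem g117 : Good 117 := Or.inl ⟨_, _, _, _, _, _, _, _, by norm_num, c117⟩
theorem g118 : Good 118 := Or.inr ⟨_, _, _, _, _, _, _, _, by norm_num, R118.cert⟩
theorem g119 : Good 119 := Or.inl ⟨_, _, _, _, _, _, _, _, by norm_num, c119⟩
theorem g120 : Good 120 := Or.inl ⟨_, _, _, _, _, _, _, _, by norm_num, c120⟩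
theorem g121 : Good 121 := Or.inl ⟨_, _, _, _, _, _, _, _, by norm_num, c121⟩
theorem g122 : Good 122 := Or.inl ⟨_, _, _, _, _, _, _, _, by norm_num, c122⟩
theorem g123 : Good 123 := Or.inl ⟨_, _, _, _, _, _, _, _, by norm_num, c123⟩
theorem g124 : Good 124 := Or.inr ⟨_, _, _, _, _, _, _, _, by norm_num, R124.cert⟩
theorem g125 : Good 125 := Or.inl ⟨_, _, _, _, _, _, _, _, by norm_num, c125⟩
theorem g126 : Good 126 := Or.inr ⟨_, _, _, _, _, _, _, _, by norm_num, R126.cert⟩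
theorem g127 : Good 127 := Or.inl ⟨_, _, _, _, _, _, _, _, by norm_num, c127⟩
theorem g134 : Good 134 := Or.inl ⟨_, _, _, _, _, _, _, _, by norm_num, c134⟩
theorem g135 : Good 135 := Or.inl ⟨_, _, _, _, _, _, _, _, by norm_num, c135⟩
theorem g141 : Good 141 := Or.inl ⟨_, _, _, _, _, _, _, _, by norm_num, c141⟩
theorem g142 : Good 142 := Or.inr ⟨_, _, _, _, _, _, _, _, by norm_num, R142.cert⟩
theorem g143 : Good 143 := Or.inl ⟨_, _, _, _, _, _, _, _, by norm_num, c143⟩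
theorem g150 : Good 150 := Or.inr ⟨_, _, _, _, _, _, _, _, by norm_num, R150.cert⟩
theorem g151 : Good 151 := Or.inl ⟨_, _, _, _, _, _, _, _, by norm_num, c151⟩
theorem g157 : Good 157 := Or.inl ⟨_, _, _, _, _, _, _, _, by norm_num, c157⟩
theorem g158 : Good 158 := Or.inr ⟨_, _, _, _, _, _, _, _, by norm_num, R158.cert⟩
theorem g159 : Good 159 := Or.inl ⟨_, _, _, _, _, _, _, _, by norm_num, c159⟩
theorem g162 : Good 162 := Or.inr ⟨_, _, _, _, _, _, _, _, by norm_num, R162.cert⟩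
theorem g163 : Good 163 := Or.inl ⟨_, _, _, _, _, _, _, _, by norm_num, c163⟩
theorem g166 : Good 166 := Or.inr ⟨_, _, _, _, _, _, _, _, by norm_num, R166.cert⟩
theorem g167 : Good 167 := Or.inl ⟨_, _, _, _, _, _, _, _, by norm_num, c167⟩
theorem g169 : Good 169 := Or.inl ⟨_, _, _, _, _, _, _, _, by norm_num, c169⟩
theorem g171 : Good 171 := Or.inl ⟨_, _, _, _, _, _, _, _, by norm_num, c171⟩
theorem g172 : Good 172 := Or.inr ⟨_, _, _, _, _, _, _, _, by norm_num, R172.cert⟩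
theorem g173 : Good 173 := Or.inl ⟨_, _, _, _, _, _, _, _, by norm_num, c173⟩
theorem g174 : Good 174 := Or.inr ⟨_, _, _, _, _, _, _, _, by norm_num, R174.cert⟩
theorem g175 : Good 175 := Or.inl ⟨_, _, _, _, _, _, _, _, by norm_num, c175⟩
theorem g178 : Good 178 := Or.inr ⟨_, _, _, _, _, _, _, _, by norm_num, R178.cert⟩
theorem g179 : Good 179 := Or.inr ⟨_, _, _, _, _, _, _, _, by norm_num, R179.cert⟩
theorem g182 : Good 182 := Or.inr ⟨_, _, _, _, _, _, _, _, by norm_num, R182.cert⟩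
theorem g183 : Good 183 := Or.inl ⟨_, _, _, _, _, _, _, _, by norm_num, c183⟩
theorem g185 : Good 185 := Or.inl ⟨_, _, _, _, _, _, _, _, by norm_num, c185⟩
theorem g187 : Good 187 := Or.inr ⟨_, _, _, _, _, _, _, _, by norm_num, R187.cert⟩
theorem g188 : Good 188 := Or.inr ⟨_, _, _, _, _, _, _, _, by norm_num, R188.cert⟩
theorem g189 : Good 189 := Or.inr ⟨_, _, _, _, _, _, _, _, by norm_num, R189.cert⟩
theorem g190 : Good 190 := Or.inr ⟨_, _, _, _, _, _, _, _, by norm_num, R190.cert⟩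
theorem g191 : Good 191 := Or.inl ⟨_, _, _, _, _, _, _, _, by norm_num, c191⟩
theorem g197 : Good 197 := Or.inl ⟨_, _, _, _, _, _, _, _, by norm_num, c197⟩
theorem g199 : Good 199 := Or.inl ⟨_, _, _, _, _, _, _, _, by norm_num, c199⟩
theorem g207 : Good 207 := Or.inl ⟨_, _, _, _, _, _, _, _, by norm_num, c207⟩
theorem g213 : Good 213 := Or.inl ⟨_, _, _, _, _, _, _, _, by norm_num, c213⟩
theorem g215 : Good 215 := Or.inl ⟨_, _, _, _, _, _, _, _, by norm_num, c215⟩
theorem g223 : Good 223 := Or.inl ⟨_, _, _, _, _, _, _, _, by norm_num, c223⟩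
theorem g225 : Good 225 := Or.inl ⟨_, _, _, _, _, _, _, _, by norm_num, c225⟩
theorem g227 : Good 227 := Or.inl ⟨_, _, _, _, _, _, _, _, by norm_num, c227⟩
theorem g229 : Good 229 := Or.inl ⟨_, _, _, _, _, _, _, _, by norm_num, c229⟩
theorem g230 : Good 230 := Or.inr ⟨_, _, _, _, _, _, _, _, by norm_num, R230.cert⟩
theorem g231 : Good 231 := Or.inl ⟨_, _, _, _, _, _, _, _, by norm_num, c231⟩
theorem g233 : Good 233 := Or.inl ⟨_, _, _, _, _, _, _, _, by norm_num, c233⟩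
theorem g235 : Good 235 := Or.inl ⟨_, _, _, _, _, _, _, _, by norm_num, c235⟩
theorem g236 : Good 236 := Or.inl ⟨_, _, _, _, _, _, _, _, by norm_num, c236⟩
theorem g237 : Good 237 := Or.inl ⟨_, _, _, _, _, _, _, _, by norm_num, c237⟩
theorem g238 : Good 238 := Or.inl ⟨_, _, _, _, _, _, _, _, by norm_num, c238⟩
theorem g239 : Good 239 := Or.inl ⟨_, _, _, _, _, _, _, _, by norm_num, c239⟩
theorem g241 : Good 241 := Or.inl ⟨_, _, _, _, _, _, _, _, by norm_num, c241⟩
theorem g243 : Good 243 := Or.inl ⟨_, _, _, _, _, _, _, _, by norm_num, c243⟩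
theorem g245 : Good 245 := Or.inl ⟨_, _, _, _, _, _, _, _, by norm_num, c245⟩
theorem g246 : Good 246 := Or.inr ⟨_, _, _, _, _, _, _, _, by norm_num, R246.cert⟩
theorem g247 : Good 247 := Or.inl ⟨_, _, _, _, _, _, _, _, by norm_num, c247⟩
theorem g249 : Good 249 := Or.inl ⟨_, _, _, _, _, _, _, _, by norm_num, c249⟩
theorem g251 : Good 251 := Or.inl ⟨_, _, _, _, _, _, _, _, by norm_num, c251⟩
theorem g252 : Good 252 := Or.inr ⟨_, _, _, _, _, _, _, _, by norm_num, R252.cert⟩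
theorem g253 : Good 253 := Or.inl ⟨_, _, _, _, _, _, _, _, by norm_num, c253⟩
theorem g254 : Good 254 := Or.inr ⟨_, _, _, _, _, _, _, _, by norm_num, R254.cert⟩
theorem g255 : Good 255 := Or.inl ⟨_, _, _, _, _, _, _, _, by norm_num, c255⟩
theorem g353 : Good 353 := Or.inl ⟨_, _, _, _, _, _, _, _, by norm_num, c353⟩
theorem g355 : Good 355 := Or.inl ⟨_, _, _, _, _, _, _, _, by norm_num, c355⟩
theorem g357 : Good 357 := Or.inl ⟨_, _, _, _, _, _, _, _, by norm_num, c357⟩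
theorem g358 : Good 358 := Or.inr ⟨_, _, _, _, _, _, _, _, by norm_num, R358.cert⟩
theorem g359 : Good 359 := Or.inl ⟨_, _, _, _, _, _, _, _, by norm_num, c359⟩
theorem g363 : Good 363 := Or.inl ⟨_, _, _, _, _, _, _, _, by norm_num, c363⟩
theorem g365 : Good 365 := Or.inl ⟨_, _, _, _, _, _, _, _, by norm_num, c365⟩
theorem g366 : Good 366 := Or.inr ⟨_, _, _, _, _, _, _, _, by norm_num, R366.cert⟩
theorem g367 : Good 367 := Or.inl ⟨_, _, _, _, _, _, _, _, by norm_num, c367⟩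
theorem g369 : Good 369 := Or.inl ⟨_, _, _, _, _, _, _, _, by norm_num, c369⟩
theorem g371 : Good 371 := Or.inl ⟨_, _, _, _, _, _, _, _, by norm_num, c371⟩
theorem g373 : Good 373 := Or.inl ⟨_, _, _, _, _, _, _, _, by norm_num, c373⟩
theorem g374 : Good 374 := Or.inr ⟨_, _, _, _, _, _, _, _, by norm_num, R374.cert⟩
theorem g375 : Good 375 := Or.inl ⟨_, _, _, _, _, _, _, _, by norm_num, c375⟩
theorem g379 : Good 379 := Or.inl ⟨_, _, _, _, _, _, _, _, by norm_num, c379⟩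
theorem g381 : Good 381 := Or.inl ⟨_, _, _, _, _, _, _, _, by norm_num, c381⟩
theorem g382 : Good 382 := Or.inr ⟨_, _, _, _, _, _, _, _, by norm_num, R382.cert⟩
theorem g383 : Good 383 := Or.inl ⟨_, _, _, _, _, _, _, _, by norm_num, c383⟩
theorem g430 : Good 430 := Or.inr ⟨_, _, _, _, _, _, _, _, by norm_num, R430.cert⟩
theorem g431 : Good 431 := Or.inr ⟨_, _, _, _, _, _, _, _, by norm_num, R431.cert⟩
theorem g446 : Good 446 := Or.inr ⟨_, _, _, _, _, _, _, _, by norm_num, R446.cert⟩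
theorem g447 : Good 447 := Or.inl ⟨_, _, _, _, _, _, _, _, by norm_num, c447⟩
theorem g485 : Good 485 := Or.inl ⟨_, _, _, _, _, _, _, _, by norm_num, c485⟩
theorem g487 : Good 487 := Or.inl ⟨_, _, _, _, _, _, _, _, by norm_num, c487⟩
theorem g495 : Good 495 := Or.inl ⟨_, _, _, _, _, _, _, _, by norm_num, c495⟩
theorem g501 : Good 501 := Or.inl ⟨_, _, _, _, _, _, _, _, by norm_num, c501⟩
theorem g503 : Good 503 := Or.inl ⟨_, _, _, _, _, _, _, _, by norm_num, c503⟩
theorem g511 : Good 511 := Or.inl ⟨_, _, _, _, _, _, _, _, by norm_num, c511⟩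
theorem g577 : Good 577 := Or.inl ⟨_, _, _, _, _, _, _, _, by norm_num, c577⟩
theorem g579 : Good 579 := Or.inl ⟨_, _, _, _, _, _, _, _, by norm_num, c579⟩
theorem g583 : Good 583 := Or.inl ⟨_, _, _, _, _, _, _, _, by norm_num, c583⟩
theorem g587 : Good 587 := Or.inl ⟨_, _, _, _, _, _, _, _, by norm_num, c587⟩
theorem g589 : Good 589 := Or.inl ⟨_, _, _, _, _, _, _, _, by norm_num, c589⟩
theorem g591 : Good 591 := Or.inl ⟨_, _, _, _, _, _, _, _, by norm_num, c591⟩
theorem g593 : Good 593 := Or.inl ⟨_, _, _, _, _, _, _, _, by norm_num, c593⟩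
theorem g595 : Good 595 := Or.inl ⟨_, _, _, _, _, _, _, _, by norm_num, c595⟩
theorem g599 : Good 599 := Or.inl ⟨_, _, _, _, _, _, _, _, by norm_num, c599⟩
theorem g603 : Good 603 := Or.inl ⟨_, _, _, _, _, _, _, _, by norm_num, c603⟩
theorem g605 : Good 605 := Or.inl ⟨_, _, _, _, _, _, _, _, by norm_num, c605⟩
theorem g607 : Good 607 := Or.inl ⟨_, _, _, _, _, _, _, _, by norm_num, c607⟩
theorem g617 : Good 617 := Or.inl ⟨_, _, _, _, _, _, _, _, by norm_num, c617⟩
theorem g619 : Good 619 := Or.inl ⟨_, _, _, _, _, _, _, _, by norm_num, c619⟩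
theorem g623 : Good 623 := Or.inl ⟨_, _, _, _, _, _, _, _, by norm_num, c623⟩
theorem g633 : Good 633 := Or.inl ⟨_, _, _, _, _, _, _, _, by norm_num, c633⟩
theorem g635 : Good 635 := Or.inl ⟨_, _, _, _, _, _, _, _, by norm_num, c635⟩
theorem g639 : Good 639 := Or.inl ⟨_, _, _, _, _, _, _, _, by norm_num, c639⟩
theorem g711 : Good 711 := Or.inl ⟨_, _, _, _, _, _, _, _, by norm_num, c711⟩
theorem g719 : Good 719 := Or.inl ⟨_, _, _, _, _, _, _, _, by norm_num, c719⟩
theorem g727 : Good 727 := Or.inl ⟨_, _, _, _, _, _, _, _, by norm_num, c727⟩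
theorem g735 : Good 735 := Or.inl ⟨_, _, _, _, _, _, _, _, by norm_num, c735⟩
theorem g739 : Good 739 := Or.inl ⟨_, _, _, _, _, _, _, _, by norm_num, c739⟩
theorem g743 : Good 743 := Or.inl ⟨_, _, _, _, _, _, _, _, by norm_num, c743⟩
theorem g749 : Good 749 := Or.inl ⟨_, _, _, _, _, _, _, _, by norm_num, c749⟩
theorem g751 : Good 751 := Or.inl ⟨_, _, _, _, _, _, _, _, by norm_num, c751⟩
theorem g755 : Good 755 := Or.inl ⟨_, _, _, _, _, _, _, _, by norm_num, c755⟩
theorem g759 : Good 759 := Or.inl ⟨_, _, _, _, _, _, _, _, by norm_num, c759⟩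
theorem g765 : Good 765 := Or.inl ⟨_, _, _, _, _, _, _, _, by norm_num, c765⟩
theorem g767 : Good 767 := Or.inl ⟨_, _, _, _, _, _, _, _, by norm_num, c767⟩
theorem g1007 : Good 1007 := Or.inl ⟨_, _, _, _, _, _, _, _, by norm_num, c1007⟩
theorem g1023 : Good 1023 := Or.inl ⟨_, _, _, _, _, _, _, _, by norm_num, c1023⟩

def reps0 : List ℕ := [0, 1, 2, 3, 6, 7, 9, 10, 11, 12, 13, 14, 15, 16, 17, 18, 19, 22, 23, 25, 26, 27, 28, 29, 30, 31, 40, 41, 42, 43, 46, 47, 56, 57, 58, 59, 62, 63, 65, 67, 68, 69, 70, 71, 75, 76, 77, 78, 79, 81, 83, 84]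

theorem good0 : ∀ m ∈ reps0, Good m := by
  unfold reps0
  simp only [List.forall_mem_cons]
  exact ⟨g0, g1, g2, g3, g6, g7, g9, g10, g11, g12, g13, g14, g15, g16, g17, g18, g19, g22, g23, g25, g26, g27, g28, g29, g30, g31, g40, g41, g42, g43, g46, g47, g56, g57, g58, g59, g62, g63, g65, g67, g68, g69, g70, g71, g75, g76, g77, g78, g79, g81, g83, g84, by simp⟩

def reps1 : List ℕ := [85, 86, 87, 91, 92, 93, 94, 95, 97, 98, 99, 100, 101, 102, 103, 104, 105, 106, 107, 108, 109, 110, 111, 113, 114, 115, 116, 117, 118, 119, 120, 121, 122, 123, 124, 125, 126, 127, 134, 135, 141, 142, 143, 150, 151, 157, 158, 159, 162, 163, 166, 167]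

theorem good1 : ∀ m ∈ reps1, Good m := by
  unfold reps1
  simp only [List.forall_mem_cons]
  exact ⟨g85, g86, g87, g91, g92, g93, g94, g95, g97, g98, g99, g100, g101, g102, g103, g104, g105, g106, g107, g108, g109, g110, g111, g113, g114, g115, g116, g117, g118, g119, g120, g121, g122, g123, g124, g125, g126, g127, g134, g135, g141, g142, g143, g150, g151, g157, g158, g159, g162, g163, g166, g167, by simp⟩

def reps2 : List ℕ := [169, 171, 172, 173, 174, 175, 178, 179, 182, 183, 185, 187, 188, 189, 190, 191, 197, 199, 207, 213, 215, 223, 225, 227, 229, 230, 231, 233, 235, 236, 237, 238, 239, 241, 243, 245, 246, 247, 249, 251, 252, 253, 254, 255, 353, 355, 357, 358, 359, 363, 365, 366]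

theorem good2 : ∀ m ∈ reps2, Good m := by
  unfold reps2
  simp only [List.forall_mem_cons]
  exact ⟨g169, g171, g172, g173, g174, g175, g178, g179, g182, g183, g185, g187, g188, g189, g190, g191, g197, g199, g207, g213, g215, g223, g225, g227, g229, g230, g231, g233, g235, g236, g237, g238, g239, g241, g243, g245, g246, g247, g249, g251, g252, g253, g254, g255, g353, g355, g357, g358, g359, g363, g365, g366, by simp⟩

def reps3 : List ℕ := [367, 369, 371, 373, 374, 375, 379, 381, 382, 383, 430, 431, 446, 447, 485, 487, 495, 501, 503, 511, 577, 579, 583, 587, 589, 591, 593, 595, 599, 603, 605, 607, 617, 619, 623, 633, 635, 639, 711, 719, 727, 735, 739, 743, 749, 751, 755, 759, 765, 767, 1007, 1023]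

theorem good3 : ∀ m ∈ reps3, Good m := by
  unfold reps3
  simp only [List.forall_mem_cons]
  exact ⟨g367, g369, g371, g373, g374, g375, g379, g381, g382, g383, g430, g431, g446, g447, g485, g487, g495, g501, g503, g511, g577, g579, g583, g587, g589, g591, g593, g595, g599, g603, g605, g607, g617, g619, g623, g633, g635, g639, g711, g719, g727, g735, g739, g743, g749, g751, g755, g759, g765, g767, g1007, g1023, by simp⟩

/-- membership in a list, for the kernel -/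
def lmem (m : ℕ) (l : List ℕ) : Bool := l.foldr (fun a b => or (Nat.beq m a) b) false

theorem lmem_mem {m : ℕ} : ∀ {l : List ℕ}, lmem m l = true → m ∈ l
  | [], h => by simp [lmem] at h
  | a :: l, h => by
    have h' : (or (Nat.beq m a) (lmem m l)) = true := h
    rw [Bool.or_eq_true, Nat.beq_eq] at h'
    rcases h' with h' | h'
    · rw [h']; simp
    · exact List.mem_cons_of_mem _ (lmem_mem h')

/-- a representative of the rule `M` -/
def rpT (M : ℕ) : ℕ := Nat.mod (Nat.shiftRight 0xffdffbfcffbfcffb7cdfbfd7f9fc7fbdcfb97c5ffbdefbbcefbbcefb3ccfbbd6f9bc6fb9ceb93c4fbfd7fbdcfb9fc7f97c5fbf57b9ec7b9ec7b96c5bbbd6fb9ceb9bc6f93c4fbb56b9ac6b9ac6b92c4b7fdbf5fcbf7dcfe5dc9f3fcbf1fc3f3dcb71dc1f7bdaf5bcaf79cee59c8f3bcaf1bc2f39ca719c0f7dd7e5f4bb7d47e5d45e3f4bd1f43b3d47a1d41b79d6e5b4ab7946e5944e3b4ad1b42b3946a1940bbfdf7bdcf7bf4fdb5cd7b7d7797c77b5cf995c57bbde7b9ce7bb4edb1cc7b3d6793c67b1ce991c47bdd7dbccf39ec7d9745db5d73974739e47994c53b9d6d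b8ce39ac6d9344db1d63934639a46990c433fcfe3ecb73f4fc3e49737c9f17c1f35c9715c173bcee3aca73b4ec3a48733c8f13c0f31c8711c073dcf63ccb33d47c3c45c35c9d1741d354781541339ce638ca33946c3844c31c8d1340d3146811403bfdf7bf4fdbdcf7b5cd7bdd7d9ec7dbccf39745dbbde7bb4edb9ce7b1cc7b9d6d9ac6db8ce39344db7d77b5cf997c7795c57b5d739e4799747394c53b3d67b1ce993c6791c47b1d639a4699346390c435fd7e5ecbd5f4f65cc9d3ecbb1ec3b3ccb31cc1d5bd6e5acad5b4e658c8d3acab1ac2b38ca318c0d5dd765ccb95d4765c4563e4b91e4393c4721c41959d6658ca959466584463a4a91a42938462184099fdf59ecf59ecf59e4d597d7596c75974f194c559bde59ace59ace59a4c593d6592c65934e190c4597d75974f196c7594c5595d7194c7194c719445193d65934e192c6590c4591d6190c6190c61904411fc7e1ec7a1f47c1e47817c5e16c1b1745c14c131bc6e1ac6a1b46c1a46813c4e12c0b1344c10c031dc761cc721d4741c45415c5614c19154541441119c6618c62194641844411c4610c0911444104017fdbf7dcfe5fcbf5dc9f7dd7e7d47e5f4bb5d45e7bdaf79cee5bcaf59c8f79d6e7946e5b4ab5944e3fcbf3dcb71fc3f1dc1f3f4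bd3d47a1f43b1d41b3bcaf39ca71bc2f19c0f3b4ad3946a1b42b1940b6fdbe5f8be5f8be5d89e3f8be1f83e3d8b61d81e6bdae5b8ae5b8ae5988e3b8ae1b82e398a61980e3f8be3d8b61f83e1d81e3f0bc1f03a1f03a1d01a3b8ae398a61b82e1980e3b0ac1b02a1b02a1900a5fd7e5f4f65ecbd5cc9d5dd765d4765ccb95c4565bd6e5b4e65acad58c8d59d665946658ca9584463ecbb3ccb31ec3b1cc1d3e4b93c4721e4391c4193acab38ca31ac2b18c0d3a4a9384621a429184092fcbe2ecb62f4bc2e49627c9e1781e27496158162bcae2aca62b4ac2a48623c8e1380e23486118062dcb62ccb21e83a1c81c25c961701c1e0381501229ca628ca21a82a1880c21c861300c1a028110023fcfe3f4fc3ecb73e4973dcf63d47c3ccb33c45c3bcee3b4ec3aca73a48739ce63946c38ca33844c37c9f35c9717c1f15c1735c9d354781741d1541333c8f31c8713c0f11c0731c8d314681340d114032fcbe2f4bc2ecb62e4962dcb61e83a2ccb21c81c2bcae2b4ac2aca62a48629ca61a82a28ca21880c27c9e274961781e1581625c961e0381701c1501223c8e234861380e1180621c861a0281300c110021fc7e1f47c1ec7a1e4781dc761d4741cc721c4541bc6e1b46c1ac6a1a46819c661946418c621844417c5e1745c16c1b14c1315c561545414c191441113c4e1344c12c0b10c0311c461144410c09104010fc3e0ec3a0ec3a0e43807c1e06c1a0741c064120bc2e0ac2a0ac2a0a42803c0e02c0a0340c0240207c1e0741c06c1a0641205c1604c1204c120441003c0e0340c02c0a0240201c0600c0200c0200400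 (Nat.mul 10 M)) 1024

/-- the permutation of the colours which takes `M` to its representative -/
def pmT (M : ℕ) : ℕ := Nat.mod (Nat.shiftRight 0x12d92475d72d12d92475d72d51552452d92451552452d9242dd71d6db6dd2dd71d6db6dd31d31c6dd71d31d31c6dd71d36d32d35d71d36d32d35d71d30d52435d52d30d52435d52d24d24d2db6db24d24d2db6db24d30c2db31d24d30c2db31d10592415d12d10592415d12d11551411d52411551411d52424d31d6db6dd24d31d6db6dd24d30c6db71d24d30c6db71d10d10434d31d10d10434d31d10511410d10410511410d10424924924b25b24924924b25b24924c24b24b24924c24b24b09551414551509551414551549249449551449249449551401d5146db6dd01d5146db6dd49249449d51449249449d51400511400510500511400510549249449549449249449549424d24d25b2db24d24d25b2db24949425b49d24949425b49d00010400510500010400510509249208549409249208549400010401b01d00010401b01d00249201b49400249201b49400000000000500000000000500009200008200009200008200900024924b00900024924b000002009000000002009000 (Nat.mul 3 M)) 8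

theorem tabA : (nall 1024 fun M => and (Nat.ble (Nat.succ (pmT M)) 6) (pB (pmT M) M (rpT M))) = true := by
  decide +kernel

theorem tabB : (nall 1024 fun M => (or (lmem (rpT M) reps0) (or (lmem (rpT M) reps1) (or (lmem (rpT M) reps2) (lmem (rpT M) reps3))))) = true := by
  decide +kernel

theorem rpT_lt (M : ℕ) : rpT M < 1024 := Nat.mod_lt _ (by norm_num)

theorem good_rp {M : ℕ} (hM : M < 1024) : Good (rpT M) := by
  have h := nall_true tabB M hM
  simp only [Bool.or_eq_true] at h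
  rcases h with h | h | h | h
  · exact good0 _ (lmem_mem h)
  · exact good1 _ (lmem_mem h)
  · exact good2 _ (lmem_mem h)
  · exact good3 _ (lmem_mem h)

theorem main_encG {n : ℕ} {rel : Fin n → Fin n → ℕ} (hO : Col rel)
    {H : Finset (Finset (Fin n))} (h3 : ∀ e ∈ H, e.card = 3) (hK : KF H) (M : ℕ) (hM : M < 1024)
    (hE : EncG (btC M) rel H) :
    (H.card : ℝ) ≤ 5 / 54 * (n : ℝ) ^ 3 + 2000 * (n : ℝ) ^ 2 := by
  have h := nall_true tabA M hM
  rw [Bool.and_eq_true] at h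
  obtain ⟨hO', hE'⟩ := enc_pm (Nat.le_of_ble_eq_true h.1) hM (rpT_lt M) h.2 hO hE
  rcases good_rp hM with ⟨B, T, L, D, K, κ, X1, X2, hKp, hc⟩ | ⟨B, T, TK, LK, r, K, κ, X, hKp, hc⟩
  · have hB : B = btC (rpT M) := by
      have h := hc
      unfold chkC at h
      simp only [Bool.and_eq_true] at h
      exact Nat.eq_of_beq_eq_true h.1.1
    have h := bound4G hc hKp hO' h3 hK (by rw [hB]; exact hE')
    have h2 : (0 : ℝ) ≤ (n : ℝ) ^ 2 := by positivity
    linarith
  · exact boundC5 hc hKp hO' h3 hK (by rw [Nat.eq_of_beq_eq_true hc.hB]; exact hE')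

theorem main_ruleG {n : ℕ} {rel : Fin n → Fin n → ℕ} (hO : Col rel)
    {H : Finset (Finset (Fin n))} (h3 : ∀ e ∈ H, e.card = 3) (hK : KF H) (hA : AlikeG rel H) :
    (H.card : ℝ) ≤ 5 / 54 * (n : ℝ) ^ 3 + 2000 * (n : ℝ) ^ 2 :=
  main_encG hO h3 hK (ruleG rel H) (ruleG_lt rel H) (encG_rule hO hA)

end Pool.Agent.W38.TC
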