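import Pool.Agent.W38.TC.Kern4
import Pool.Agent.W38.TO.Bridge

/-! From 3-graphs encoded by a colouring to codes. -/

set_option autoImplicit false
set_option maxRecDepth 100000
open Finset

namespace Pool.Agent.W38.TC

open Pool.Agent.H122R2.FdF Pool.Agent.W38.TO

def pcC : Bool := nall 3 fun x => nall 3 fun y => nall 3 fun z => nall 3 fun u => nall 3 fun v =>
  nall 3 fun w => or (not (Nat.beq (tyC (cd x y z)) (tyC (cd u v w))))
    (or (Nat.beq (cd x y z) (cd u v w)) (or (Nat.beq (cd y x z) (cd u v w))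
    (or (Nat.beq (cd x z y) (cd u v w)) (or (Nat.beq (cd z x y) (cd u v w))
    (or (Nat.beq (cd y z x) (cd u v w)) (Nat.beq (cd z y x) (cd u v w)))))))

theorem pcC_true : pcC = true := by decide +kernel

theorem perm_codesC {x y z u v w : ℕ} (hx : x < 3) (hy : y < 3) (hz : z < 3) (hu : u < 3)
    (hv : v < 3) (hw : w < 3) (h : tyC (cd x y z) = tyC (cd u v w)) :
    (cd x y z = cd u v w ∨ cd y x z = cd u v w ∨ cd x z y = cd u v w ∨
      cd z x y = cd u v w ∨ cd y z x = cd u v w ∨ cd z y x = cd u v w) := by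
  have h1 := nall_true (nall_true (nall_true (nall_true (nall_true (nall_true pcC_true x hx) y hy)
    z hz) u hu) v hv) w hw
  simp only [Bool.or_eq_true, Bool.not_eq_true', Nat.beq_eq] at h1
  rcases h1 with h1 | h1
  · rw [h] at h1
    have h2 : Nat.beq (tyC (cd u v w)) (tyC (cd u v w)) = true := Nat.beq_refl _
    rw [h1] at h2
    exact absurd h2 (by decide)
  · exact h1

def bsC : Bool := nall 1024 fun M => nall 27 fun c =>
  Nat.beq (Nat.mod (Nat.shiftRight (btC M) c) 2) (eN M (tyC c))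

theorem bsC_true : bsC = true := by decide +kernel

theorem btC_spec {M : ℕ} (hM : M < 1024) {c : ℕ} (hc : c < 27) : eN (btC M) c = eN M (tyC c) :=
  Nat.eq_of_beq_eq_true (nall_true (nall_true bsC_true M hM) c hc)

theorem tyC_ltB : (nall 27 fun c => Nat.ble (Nat.succ (tyC c)) 10) = true := by decide +kernel

theorem tyC_lt {c : ℕ} (hc : c < 27) : tyC c < 10 := Nat.le_of_ble_eq_true (nall_true tyC_ltB c hc)

open scoped Classical

/-- a symmetric relation with values 0, 1, 2 -/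
def Col {V : Type} (rel : V → V → ℕ) : Prop :=
  (∀ x y, rel x y < 3) ∧ ∀ x y, rel x y = rel y x

/-- code of the colours of three vertices -/
def codeG {n : ℕ} (rel : Fin n → Fin n → ℕ) (a b c : Fin n) : ℕ :=
  cd (rel a b) (rel a c) (rel b c)

/-- membership in `H` is given by the table `B` -/
def EncG {n : ℕ} (B : ℕ) (rel : Fin n → Fin n → ℕ) (H : Finset (Finset (Fin n))) : Prop :=
  ∀ a b c : Fin n, a ≠ b → a ≠ c → b ≠ c → (({a, b, c} : Finset (Fin n)) ∈ H ↔
    eN B (codeG rel a b c) = 1)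

theorem no_fourG {n : ℕ} {B : ℕ} {rel : Fin n → Fin n → ℕ} {H : Finset (Finset (Fin n))}
    (hE : EncG B rel H) (hK : KF H) (x : Fin 4 → Fin n) (hx : Function.Injective x) :
    fourN B (rel (x 0) (x 1)) (rel (x 0) (x 2)) (rel (x 0) (x 3)) (rel (x 1) (x 2))
      (rel (x 1) (x 3)) (rel (x 2) (x 3)) ≠ 4 := by
  intro h
  unfold fourN at h
  simp only [Nat.add_eq] at h
  have l1 := eN_le B (cd (rel (x 0) (x 1)) (rel (x 0) (x 2)) (rel (x 1) (x 2)))
  have l2 := eN_le B (cd (rel (x 0) (x 1)) (rel (x 0) (x 3)) (rel (x 1) (x 3)))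
  have l3 := eN_le B (cd (rel (x 0) (x 2)) (rel (x 0) (x 3)) (rel (x 2) (x 3)))
  have l4 := eN_le B (cd (rel (x 1) (x 2)) (rel (x 1) (x 3)) (rel (x 2) (x 3)))
  have n01 : x 0 ≠ x 1 := fun h => absurd (hx h) (by decide)
  have n02 : x 0 ≠ x 2 := fun h => absurd (hx h) (by decide)
  have n03 : x 0 ≠ x 3 := fun h => absurd (hx h) (by decide)
  have n12 : x 1 ≠ x 2 := fun h => absurd (hx h) (by decide)
  have n13 : x 1 ≠ x 3 := fun h => absurd (hx h) (by decide)
  have n23 : x 2 ≠ x 3 := fun h => absurd (hx h) (by decide)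
  exact four_sets hK n01 n02 n03 n12 n13 n23
    ((hE _ _ _ n01 n02 n12).mpr (by unfold codeG; omega))
    ((hE _ _ _ n01 n03 n13).mpr (by unfold codeG; omega))
    ((hE _ _ _ n02 n03 n23).mpr (by unfold codeG; omega))
    ((hE _ _ _ n12 n13 n23).mpr (by unfold codeG; omega))

theorem card_le_sumG {n : ℕ} {B : ℕ} {rel : Fin n → Fin n → ℕ} {H : Finset (Finset (Fin n))}
    (h3 : ∀ e ∈ H, e.card = 3) (hE : EncG B rel H) :
    6 * (H.card : ℤ) ≤ ∑ a, ∑ b, ∑ c, EE rel (fun c => (eN B c : ℤ)) a b c := by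
  have h1 := six_le h3
  have h2 : (∑ a : Fin n, ∑ b : Fin n, ∑ c : Fin n,
      (if ({a, b, c} : Finset (Fin n)) ∈ H then 1 else 0))
      ≤ ∑ a : Fin n, ∑ b : Fin n, ∑ c : Fin n, eN B (codeG rel a b c) := by
    refine sum_le_sum fun a _ => sum_le_sum fun b _ => sum_le_sum fun c _ => ?_
    split_ifs with h
    · obtain ⟨hab, hac, hbc⟩ := card_of_triple (h3 _ h)
      rw [(hE a b c hab hac hbc).mp h]
    · exact Nat.zero_le _
  have h4 : ((6 * H.card : ℕ) : ℤ) ≤ ((∑ a : Fin n, ∑ b : Fin n, ∑ c : Fin n,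
      eN B (codeG rel a b c) : ℕ) : ℤ) := by exact_mod_cast le_trans h1 h2
  push_cast at h4
  exact h4

theorem bound4G {n : ℕ} {M B T L D K κ X1 X2 : ℕ} (h : chkC M B T L D K κ X1 X2 = true)
    (hKp : 0 < K) {rel : Fin n → Fin n → ℕ} (hO : Col rel) {H : Finset (Finset (Fin n))}
    (h3 : ∀ e ∈ H, e.card = 3) (hK : KF H) (hE : EncG B rel H) :
    (H.card : ℝ) ≤ 5 / 54 * (n : ℝ) ^ 3 + 40 / 9 * (n : ℝ) ^ 2 := by
  rcases Nat.eq_zero_or_pos n with rfl | hn
  · have : H.card = 0 := by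
      rw [card_eq_zero, eq_empty_iff_forall_notMem]
      intro e he
      have h5 := h3 e he
      have h6 : e = ∅ := by
        ext v; exact v.elim0
      rw [h6] at h5
      simp at h5
    rw [this]
    norm_num
  · have h1 := soundC h rel hO.1 hO.2 (no_fourG hE hK)
    have h2 := card_le_sumG h3 hE
    rw [Fintype.card_fin] at h1
    have hnz : (0 : ℤ) < (n : ℤ) := by exact_mod_cast hn
    have hKz : (0 : ℤ) < (K : ℤ) := by exact_mod_cast hKp
    have h4 : 36 * (K : ℤ) * (n : ℤ) * (6 * (H.card : ℤ))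
        ≤ 20 * (K : ℤ) * (n : ℤ) ^ 4 + 960 * (K : ℤ) * (n : ℤ) ^ 3 :=
      le_trans (mul_le_mul_of_nonneg_left h2 (by positivity)) h1
    have h5 : (K : ℤ) * (n : ℤ) * (216 * (H.card : ℤ))
        ≤ (K : ℤ) * (n : ℤ) * (20 * (n : ℤ) ^ 3 + 960 * (n : ℤ) ^ 2) := by
      calc (K : ℤ) * (n : ℤ) * (216 * (H.card : ℤ))
          = 36 * (K : ℤ) * (n : ℤ) * (6 * (H.card : ℤ)) := by ring
        _ ≤ _ := h4
        _ = _ := by ring
    have h6 := le_of_mul_le_mul_left h5 (by positivity)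
    have h7 : (216 * (H.card : ℝ)) ≤ 20 * (n : ℝ) ^ 3 + 960 * (n : ℝ) ^ 2 := by exact_mod_cast h6
    linarith

/-! ### the rule of an encoded 3-graph -/

/-- triples with the same colours are alike -/
def AlikeG {n : ℕ} (rel : Fin n → Fin n → ℕ) (H : Finset (Finset (Fin n))) : Prop :=
  ∀ a b c a' b' c' : Fin n, a ≠ b → a ≠ c → b ≠ c → a' ≠ b' → a' ≠ c' → b' ≠ c' →
    rel a b = rel a' b' → rel a c = rel a' c' → rel b c = rel b' c' →
    (({a, b, c} : Finset (Fin n)) ∈ H ↔ ({a', b', c'} : Finset (Fin n)) ∈ H)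

theorem alikeG_type {n : ℕ} {rel : Fin n → Fin n → ℕ} {H : Finset (Finset (Fin n))}
    (hO : Col rel) (hA : AlikeG rel H) {a b c a' b' c' : Fin n} (hab : a ≠ b) (hac : a ≠ c)
    (hbc : b ≠ c) (hab' : a' ≠ b') (hac' : a' ≠ c') (hbc' : b' ≠ c')
    (h : tyC (codeG rel a b c) = tyC (codeG rel a' b' c')) :
    (({a, b, c} : Finset (Fin n)) ∈ H ↔ ({a', b', c'} : Finset (Fin n)) ∈ H) := by
  have key : ∀ {a b c : Fin n}, a ≠ b → a ≠ c → b ≠ c →
      cd (rel a b) (rel a c) (rel b c) = cd (rel a' b') (rel a' c') (rel b' c') →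
      (({a, b, c} : Finset (Fin n)) ∈ H ↔ ({a', b', c'} : Finset (Fin n)) ∈ H) := by
    intro a b c hab hac hbc h
    obtain ⟨h1, h2, h3⟩ := cd_inj (hO.1 _ _) (hO.1 _ _) (hO.1 _ _) (hO.1 _ _) h
    exact hA a b c a' b' c' hab hac hbc hab' hac' hbc' h1 h2 h3
  have hp := perm_codesC (hO.1 a b) (hO.1 a c) (hO.1 b c) (hO.1 a' b') (hO.1 a' c')
    (hO.1 b' c') h
  rcases hp with h | h | h | h | h | h
  · exact key hab hac hbc h
  · have e : ({a, b, c} : Finset (Fin n)) = {a, c, b} := by rw [pair_comm c b]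
    rw [e]
    refine key hac hab hbc.symm ?_
    rw [hO.2 c b]; exact h
  · have e : ({a, b, c} : Finset (Fin n)) = {b, a, c} := insert_comm _ _ _
    rw [e]
    refine key hab.symm hbc hac ?_
    rw [hO.2 b a]; exact h
  · have e : ({a, b, c} : Finset (Fin n)) = {b, c, a} := by rw [insert_comm a b, pair_comm a c]
    rw [e]
    refine key hbc hab.symm hac.symm ?_
    rw [hO.2 b a, hO.2 c a]; exact h
  · have e : ({a, b, c} : Finset (Fin n)) = {c, a, b} := by
      rw [pair_comm b c, insert_comm a c]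
    rw [e]
    refine key hac.symm hbc.symm hab ?_
    rw [hO.2 c a, hO.2 c b]; exact h
  · have e : ({a, b, c} : Finset (Fin n)) = {c, b, a} := by
      rw [pair_comm b c, insert_comm a c, pair_comm a b]
    rw [e]
    refine key hbc.symm hac.symm hab.symm ?_
    rw [hO.2 c b, hO.2 c a, hO.2 b a]; exact h

theorem bits10 (b : ℕ → ℕ) (hb : ∀ t, b t ≤ 1) (t : ℕ) (ht : t < 10) :
    eN (∑ t ∈ range 10, b t * 2 ^ t) t = b t := by
  have h0 := hb 0
  have h1 := hb 1
  have h2 := hb 2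
  have h3 := hb 3
  have h4 := hb 4
  have h5 := hb 5
  have h6 := hb 6
  have h7 := hb 7
  have h8 := hb 8
  have h9 := hb 9
  simp only [sum_range_succ, sum_range_zero, zero_add, pow_zero, mul_one]
  have e : ∀ v t : ℕ, eN v t = v / 2 ^ t % 2 := fun v t => by
    unfold eN
    show (v >>> t) % 2 = _
    rw [Nat.shiftRight_eq_div_pow]
  rw [e]
  interval_cases t <;> norm_num <;> omega

theorem codeG_lt {n : ℕ} {rel : Fin n → Fin n → ℕ} (hO : Col rel) (a b c : Fin n) :
    codeG rel a b c < 27 := by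
  have h1 := hO.1 a b
  have h2 := hO.1 a c
  have h3 := hO.1 b c
  unfold codeG cd
  simp only [Nat.add_eq, Nat.mul_eq]
  omega

/-- an edge of type `t` exists -/
def HasTypeG {n : ℕ} (rel : Fin n → Fin n → ℕ) (H : Finset (Finset (Fin n))) (t : ℕ) : Prop :=
  ∃ a b c : Fin n, a ≠ b ∧ a ≠ c ∧ b ≠ c ∧ tyC (codeG rel a b c) = t ∧
    ({a, b, c} : Finset (Fin n)) ∈ H

noncomputable def ruleG {n : ℕ} (rel : Fin n → Fin n → ℕ) (H : Finset (Finset (Fin n))) : ℕ :=
  ∑ t ∈ range 10, (if HasTypeG rel H t then 1 else 0) * 2 ^ t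

theorem ruleG_bit {n : ℕ} (rel : Fin n → Fin n → ℕ) (H : Finset (Finset (Fin n))) (t : ℕ)
    (ht : t < 10) : eN (ruleG rel H) t = if HasTypeG rel H t then 1 else 0 :=
  bits10 (fun t => if HasTypeG rel H t then 1 else 0) (fun t => by split_ifs <;> omega) t ht

theorem sum10_lt (b : ℕ → ℕ) (hb : ∀ t, b t ≤ 1) : ∑ t ∈ range 10, b t * 2 ^ t < 1024 := by
  have h0 := hb 0
  have h1 := hb 1
  have h2 := hb 2
  have h3 := hb 3
  have h4 := hb 4
  have h5 := hb 5
  have h6 := hb 6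
  have h7 := hb 7
  have h8 := hb 8
  have h9 := hb 9
  simp only [sum_range_succ, sum_range_zero, zero_add, pow_zero, mul_one]
  norm_num
  omega

theorem ruleG_lt {n : ℕ} (rel : Fin n → Fin n → ℕ) (H : Finset (Finset (Fin n))) :
    ruleG rel H < 1024 :=
  sum10_lt (fun t => if HasTypeG rel H t then 1 else 0) (fun t => by split_ifs <;> omega)

theorem encG_rule {n : ℕ} {rel : Fin n → Fin n → ℕ} {H : Finset (Finset (Fin n))}
    (hO : Col rel) (hA : AlikeG rel H) : EncG (btC (ruleG rel H)) rel H := by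
  intro a b c hab hac hbc
  rw [btC_spec (ruleG_lt rel H) (codeG_lt hO a b c), ruleG_bit rel H _ (tyC_lt (codeG_lt hO a b c))]
  constructor
  · intro h
    rw [if_pos ⟨a, b, c, hab, hac, hbc, rfl, h⟩]
  · intro h
    split_ifs at h with h1
    obtain ⟨a', b', c', hab', hac', hbc', ht, hH⟩ := h1
    exact (alikeG_type hO hA hab hac hbc hab' hac' hbc' ht.symm).mpr hH

/-! ### permuting the colours -/

/-- the permutation of the colours with index `p < 6` -/
def pm (p x : ℕ) : ℕ := Nat.mod (Nat.shiftRight 0x192261624 (Nat.mul 2 (Nat.add (Nat.mul 3 p) x))) 4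

theorem pm_ltB : (nall 6 fun p => nall 3 fun x => Nat.ble (Nat.succ (pm p x)) 3) = true := by
  decide +kernel

def pB (p M M' : ℕ) : Bool := nall 3 fun x => nall 3 fun y => nall 3 fun z =>
  Nat.beq (eN M' (tyC (cd (pm p x) (pm p y) (pm p z)))) (eN M (tyC (cd x y z)))

theorem enc_pm {n : ℕ} {M M' p : ℕ} (hp : p < 6) (hMl : M < 1024) (hMl' : M' < 1024)
    (hM : pB p M M' = true) {rel : Fin n → Fin n → ℕ}
    (hO : Col rel) {H : Finset (Finset (Fin n))} (hE : EncG (btC M) rel H) :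
    Col (fun x y => pm p (rel x y)) ∧ EncG (btC M') (fun x y => pm p (rel x y)) H := by
  have hlt : ∀ x, x < 3 → pm p x < 3 := fun x hx =>
    Nat.le_of_ble_eq_true (nall_true (nall_true pm_ltB p hp) x hx)
  have hO' : Col (fun x y => pm p (rel x y)) :=
    ⟨fun x y => hlt _ (hO.1 x y), fun x y => by
      show pm p (rel x y) = pm p (rel y x)
      rw [hO.2 x y]⟩
  refine ⟨hO', ?_⟩
  intro a b c hab hac hbc
  rw [hE a b c hab hac hbc, btC_spec hMl (codeG_lt hO a b c), btC_spec hMl' (codeG_lt hO' a b c)]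
  have h := Nat.eq_of_beq_eq_true (nall_true (nall_true (nall_true hM _ (hO.1 a b)) _
    (hO.1 a c)) _ (hO.1 b c))
  unfold codeG
  rw [h]

end Pool.Agent.W38.TC
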