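import Pool.Agent.W38.TO.Kern4

/-! Kernel-reducible checker for the certificates with four vertices (three colours). -/

set_option autoImplicit false
set_option maxRecDepth 100000
open Finset
open scoped Classical

namespace Pool.Agent.W38.TC

open Pool.Agent.H122R2.FdF Pool.Agent.W38.TO

def S3 (f : ℕ → Bool) : Bool := and (f 0) (and (f 1) (f 2))

theorem S3_true {f : ℕ → Bool} (h : S3 f = true) {d : ℕ} (hd : d < 3) : f d = true := by
  unfold S3 at h
  simp only [Bool.and_eq_true] at h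
  interval_cases d
  · exact h.1
  · exact h.2.1
  · exact h.2.2

def qC (T s i j : ℕ) : ℕ := tT T (Nat.add (Nat.mul 81 s) (Nat.add (Nat.mul 9 i) j))
def zC (T i j : ℕ) : ℕ := tT T (Nat.add 243 (Nat.add (Nat.mul 3 i) j))

def leafC (T B κ d01 d02 d03 d12 d13 d23 : ℕ) : ℕ :=
  Nat.add (Nat.add
    (Nat.add (qC T d01 (at3 d02 d12) (at3 d03 d13)) (Nat.add (qC T d01 (at3 d12 d02) (at3 d13 d03))
    (Nat.add (qC T d02 (at3 d01 d12) (at3 d03 d23)) (Nat.add (qC T d02 (at3 d12 d01) (at3 d23 d03))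
    (Nat.add (qC T d03 (at3 d01 d13) (at3 d02 d23)) (Nat.add (qC T d03 (at3 d13 d01) (at3 d23 d02))
    (Nat.add (qC T d12 (at3 d01 d02) (at3 d13 d23)) (Nat.add (qC T d12 (at3 d02 d01) (at3 d23 d13))
    (Nat.add (qC T d13 (at3 d01 d03) (at3 d12 d23)) (Nat.add (qC T d13 (at3 d03 d01) (at3 d23 d12))
    (Nat.add (qC T d23 (at3 d02 d03) (at3 d12 d13)) (qC T d23 (at3 d03 d02) (at3 d13 d12)))))))))))))
    (Nat.add (zC T d01 d23) (Nat.add (zC T d02 d13) (zC T d03 d12))))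
    (Nat.mul κ (fourN B d01 d02 d03 d12 d13 d23))

def chkNC (T B κ X1 X2 : ℕ) : Bool :=
  S3 fun d01 => S3 fun d02 => S3 fun d12 => S3 fun d03 => S3 fun d13 =>
  S3 fun d23 => cond (Nat.beq (fourN B d01 d02 d03 d12 d13 d23) 4)
    (Nat.ble (leafC T B κ d01 d02 d03 d12 d13 d23) X2)
    (Nat.ble (leafC T B κ d01 d02 d03 d12 d13 d23) X1)

def chkPC (T L D : ℕ) : Bool :=
  and (nall 9 fun i => nall 9 fun j => and (psN L D 0 i j (qC T 0 i j))
    (and (psN L D 1 i j (qC T 1 i j)) (psN L D 2 i j (qC T 2 i j))))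
    (nall 3 fun i => nall 3 fun j => psN L D 3 i j (zC T i j))

/-- the ten types of coloured triples: 000 001 002 011 012 022 111 112 122 222 -/
def tyC (c : ℕ) : ℕ := Nat.mod (Nat.shiftRight 0x985874542874763431542431210 (Nat.mul 4 c)) 16
/-- edge table of a rule -/
def btC (M : ℕ) : ℕ := nsum 27 fun c => Nat.mul (Nat.pow 2 c) (eN M (tyC c))

def chkC (M B T L D K κ X1 X2 : ℕ) : Bool :=
  and (and (Nat.beq B (btC M)) (and (Nat.beq κ (Nat.mul 9 K))
    (and (Nat.beq X1 (Nat.add (Nat.mul 20 K) 503316480))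
      (Nat.beq X2 (Nat.add (Nat.mul 180 K) 503316480)))))
    (and (chkPC T L D) (chkNC T B κ X1 X2))

theorem leafC_eq {V : Type} (rel : V → V → ℕ) (hsym : ∀ x y, rel x y = rel y x)
    (T B κ : ℕ) (x : Fin 4 → V) :
    (leafC T B κ (rel (x 0) (x 1)) (rel (x 0) (x 2)) (rel (x 0) (x 3)) (rel (x 1) (x 2))
      (rel (x 1) (x 3)) (rel (x 2) (x 3)) : ℤ)
    = Leaf4 rel (fun s i j => (qC T s i j : ℤ) - 33554432) (fun i j => (zC T i j : ℤ) - 33554432)
        (fun c => (eN B c : ℤ)) (κ : ℤ) x + 503316480 := by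
  unfold leafC Leaf4 QQ ZZ EE fourN at2 at3
  rw [hsym (x 1) (x 0), hsym (x 2) (x 0), hsym (x 3) (x 0), hsym (x 2) (x 1), hsym (x 3) (x 1),
    hsym (x 3) (x 2)]
  simp only [Nat.add_eq, Nat.mul_eq]
  push_cast
  ring

theorem soundC {M B T L D K κ X1 X2 : ℕ} (h : chkC M B T L D K κ X1 X2 = true)
    {V : Type} [Fintype V] (rel : V → V → ℕ) (hlt : ∀ x y, rel x y < 3)
    (hsym : ∀ x y, rel x y = rel y x)
    (hK : ∀ x : Fin 4 → V, Function.Injective x → fourN B (rel (x 0) (x 1)) (rel (x 0) (x 2))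
      (rel (x 0) (x 3)) (rel (x 1) (x 2)) (rel (x 1) (x 3)) (rel (x 2) (x 3)) ≠ 4) :
    36 * (K : ℤ) * (Fintype.card V : ℤ) * (∑ a, ∑ b, ∑ c, EE rel (fun c => (eN B c : ℤ)) a b c)
      ≤ 20 * (K : ℤ) * (Fintype.card V : ℤ) ^ 4 + 960 * (K : ℤ) * (Fintype.card V : ℤ) ^ 3 := by
  unfold chkC at h
  simp only [Bool.and_eq_true] at h
  obtain ⟨⟨-, hκ, hX1, hX2⟩, hP, hN⟩ := h
  have hκ := Nat.eq_of_beq_eq_true hκ
  have hX1 := Nat.eq_of_beq_eq_true hX1
  have hX2 := Nat.eq_of_beq_eq_true hX2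
  simp only [Nat.add_eq, Nat.mul_eq] at hκ hX1 hX2
  unfold chkPC at hP
  simp only [Bool.and_eq_true] at hP
  obtain ⟨hP1, hP2⟩ := hP
  have hleaf : ∀ x : Fin 4 → V, cond (Nat.beq (fourN B (rel (x 0) (x 1)) (rel (x 0) (x 2))
      (rel (x 0) (x 3)) (rel (x 1) (x 2)) (rel (x 1) (x 3)) (rel (x 2) (x 3))) 4)
      (Nat.ble (leafC T B κ (rel (x 0) (x 1)) (rel (x 0) (x 2)) (rel (x 0) (x 3)) (rel (x 1) (x 2))
      (rel (x 1) (x 3)) (rel (x 2) (x 3))) X2)
      (Nat.ble (leafC T B κ (rel (x 0) (x 1)) (rel (x 0) (x 2)) (rel (x 0) (x 3)) (rel (x 1) (x 2))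
      (rel (x 1) (x 3)) (rel (x 2) (x 3))) X1) = true :=
    fun x => S3_true (S3_true (S3_true (S3_true (S3_true (S3_true hN (hlt (x 0) (x 1)))
      (hlt (x 0) (x 2))) (hlt (x 1) (x 2))) (hlt (x 0) (x 3))) (hlt (x 1) (x 3)))
      (hlt (x 2) (x 3))
  have hinj : ∀ x : Fin 4 → V, Function.Injective x →
      Leaf4 rel (fun s i j => (qC T s i j : ℤ) - 33554432) (fun i j => (zC T i j : ℤ) - 33554432)
        (fun c => (eN B c : ℤ)) (κ : ℤ) x ≤ 20 * (K : ℤ) := by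
    intro x hx
    have h1 := hleaf x
    have h2 : Nat.beq (fourN B (rel (x 0) (x 1)) (rel (x 0) (x 2))
      (rel (x 0) (x 3)) (rel (x 1) (x 2)) (rel (x 1) (x 3)) (rel (x 2) (x 3))) 4 = false := by
      cases hb : Nat.beq (fourN B (rel (x 0) (x 1)) (rel (x 0) (x 2))
        (rel (x 0) (x 3)) (rel (x 1) (x 2)) (rel (x 1) (x 3)) (rel (x 2) (x 3))) 4
      · rfl
      · exact absurd (Nat.eq_of_beq_eq_true hb) (hK x hx)
    rw [h2] at h1
    have h3 := Nat.le_of_ble_eq_true h1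
    have h4 : ((leafC T B κ (rel (x 0) (x 1)) (rel (x 0) (x 2)) (rel (x 0) (x 3)) (rel (x 1) (x 2))
      (rel (x 1) (x 3)) (rel (x 2) (x 3)) : ℕ) : ℤ)
      ≤ (X1 : ℤ) := by exact_mod_cast h3
    rw [leafC_eq rel hsym, hX1] at h4
    push_cast at h4
    linarith
  have hall : ∀ x : Fin 4 → V,
      Leaf4 rel (fun s i j => (qC T s i j : ℤ) - 33554432) (fun i j => (zC T i j : ℤ) - 33554432)
        (fun c => (eN B c : ℤ)) (κ : ℤ) x ≤ 20 * (K : ℤ) + 160 * (K : ℤ) := by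
    intro x
    have h1 := hleaf x
    have h4 : ((leafC T B κ (rel (x 0) (x 1)) (rel (x 0) (x 2)) (rel (x 0) (x 3)) (rel (x 1) (x 2))
      (rel (x 1) (x 3)) (rel (x 2) (x 3)) : ℕ) : ℤ)
      ≤ (X2 : ℤ) := by
      cases hb : Nat.beq (fourN B (rel (x 0) (x 1)) (rel (x 0) (x 2))
        (rel (x 0) (x 3)) (rel (x 1) (x 2)) (rel (x 1) (x 3)) (rel (x 2) (x 3))) 4
      · rw [hb] at h1
        have h3 := Nat.le_of_ble_eq_true h1
        have h5 : X1 ≤ X2 := by omega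
        exact_mod_cast le_trans h3 h5
      · rw [hb] at h1
        exact_mod_cast Nat.le_of_ble_eq_true h1
    rw [leafC_eq rel hsym, hX2] at h4
    push_cast at h4
    linarith
  have key := flag4 rel hlt (fun s i j => (qC T s i j : ℤ) - 33554432)
    (fun i j => (zC T i j : ℤ) - 33554432) (fun c => (eN B c : ℤ)) (κ : ℤ) (20 * (K : ℤ))
    (160 * (K : ℤ)) (by positivity) (by positivity) 12 12
    (fun s k => (dN D s k : ℤ))
    (fun s k => by positivity) (fun s i k => (lN L s i k : ℤ) - 2048)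
    (fun k => (dN D 3 k : ℤ)) (fun k => by positivity) (fun i k => (lN L 3 i k : ℤ) - 2048)
    ?_ ?_ hinj hall
  · rw [hκ] at key
    push_cast at key
    linarith
  · intro s i j hs hi hj
    have h1 := nall_true (nall_true hP1 i hi) j hj
    simp only [Bool.and_eq_true] at h1
    interval_cases s
    · exact ps_eq h1.1
    · exact ps_eq h1.2.1
    · exact ps_eq h1.2.2
  · intro i j hi hj
    exact ps_eq (nall_true (nall_true hP2 i hi) j hj)

end Pool.Agent.W38.TC
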