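import Pool.Agent.W38.TC.Sum5
import Pool.Agent.W38.TC.Bridge
import Pool.Agent.W38.TO.Kern5
import Pool.Agent.W38.TO.Zero5

/-! Kernel-reducible checker for the certificates with five vertices (three colours). -/

set_option autoImplicit false
set_option maxRecDepth 100000
open Finset

namespace Pool.Agent.W38.TC

open Pool.Agent.H122R2.FdF Pool.Agent.W38.TO

/-- permutation of attachment codes to the canonical labelling of a coloured triple -/
def paC (c i : ℕ) : ℕ := Nat.mod (Nat.shiftRight 0x1ace2f6ad2728c1ee6b16a4a0e62906208357a45cb41459b4e0d51c81c564f624c306af48b96828b369c1aa39038ac9ec49860d5e99b4f15945cb8354f6250511c8130c1a8a3303e1e6bb8b6692ac1d1629a8324835145dc5a2c5981ecd24d41c3cd560e4906af4cda78aca2e5c1aa7b128288e409860d451981f0f35dc5b349560e8b14d419241a8a3303e1e6bb8b6692ac1d1629a83248359c5ed5a4e5183dcd62d4941cc520c4106b388c1e839af6ab9ac290749c96a48820d5e9172d05166d3835472071593d8930c1ace2f6ad2728c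1ee6b16a4a0e62906208359c5ed5a4e5183dcd62d4941cc520c4106af48b96828b369c1aa39038ac9ec49860d5e99b4f15945cb8354f6250511c8130c1abd3369e2b28b9706a9ec4a0a2390261835146607c3cd7716cd25583a2c535064906b38bdab49ca307b9ac5a928398a418820d671183d0735ed57358520e9392d491041ace2307a0e6bdaae6b0a41d2725a92208359c5ed5a4e5183dcd62d4941cc520c4106b38bdab49ca307b9ac5a928398a418820d671183d0735ed57358520e9392d491041ace2f6ad2728c1ee6b16a4a0e62906208359c5ed5a4e5183dcd62d4941cc520c4106b38bdab49ca307b9ac5a928398a418820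
  (Nat.mul 5 (Nat.add (Nat.mul 27 c) i))) 32

def q3C (T : ℕ → ℕ) (B κ c i j : ℕ) : ℕ :=
  Nat.add (t30 (T (tyC c)) (Nat.add (Nat.mul 27 (paC c i)) (paC c j))) (Nat.mul κ (eN B c))

def leafS (q3 : ℕ → ℕ → ℕ → ℕ) (q1 : ℕ → ℕ → ℕ)
    (d01 d02 d03 d04 d12 d13 d14 d23 d24 d34 : ℕ) : ℕ :=
  leafG q3 q1 d01 d01 d02 d02 d03 d03 d04 d04 d12 d12 d13 d13 d14 d14 d23 d23 d24 d24 d34 d34

def chkIC (q3 : ℕ → ℕ → ℕ → ℕ) (q1 : ℕ → ℕ → ℕ) (B X d01 d02 d12 : ℕ) : Bool :=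
  S3 fun d03 => S3 fun d13 => S3 fun d23 =>
  cond (Nat.beq (fourN B d01 d02 d03 d12 d13 d23) 4) true
  (S3 fun d04 => S3 fun d14 => S3 fun d24 =>
  cond (Nat.beq (fourN B d01 d02 d04 d12 d14 d24) 4) true
  (S3 fun d34 => cond (Nat.beq (fourN B d01 d03 d04 d13 d14 d34) 4) true
  (cond (Nat.beq (fourN B d02 d03 d04 d23 d24 d34) 4) true
  (cond (Nat.beq (fourN B d12 d13 d14 d23 d24 d34) 4) true
  (Nat.ble (leafS q3 q1 d01 d02 d03 d04 d12 d13 d14 d23 d24 d34) X)))))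

theorem paC_lt : (nall 27 fun c => nall 27 fun i => Nat.ble (Nat.succ (paC c i)) 27) = true := by
  decide +kernel

/-- all checks for one rule -/
structure CertC5 (M B : ℕ) (T : ℕ → ℕ) (TK LK r K κ X : ℕ) : Prop where
  hB : Nat.beq B (btC M) = true
  hκ : Nat.beq κ (Nat.mul 9 K) = true
  hX : Nat.beq X (Nat.add (Nat.mul 50 K) 13421772800) = true
  hT : ∀ t < 10, ∃ L r', chkT (T t) L r' = true
  hk : chkT TK LK r = true
  hc : ∀ d01 < 3, ∀ d02 < 3, ∀ d12 < 3,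
    chkIC (q3C T B κ) (q1N TK) B X d01 d02 d12 = true

open scoped Classical

theorem pad {r K : ℕ} (h : r ≤ K) (u v : ℕ → ℕ) :
    ∑ k ∈ range K, (((if k < r then u k else 32768 : ℕ) : ℤ) - 32768) *
      (((if k < r then v k else 32768 : ℕ) : ℤ) - 32768)
    = ∑ k ∈ range r, ((u k : ℤ) - 32768) * ((v k : ℤ) - 32768) := by
  rw [← sum_subset (range_subset_range.mpr h)]
  · refine sum_congr rfl fun k hk => ?_
    rw [if_pos (mem_range.mp hk), if_pos (mem_range.mp hk)]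
  · intro k _ hk
    rw [mem_range] at hk
    rw [if_neg hk, if_neg hk]
    norm_num

theorem leaf_sym {V : Type} {rel : V → V → ℕ} (hsym : ∀ x y, rel x y = rel y x)
    (q3 : ℕ → ℕ → ℕ → ℕ) (q1 : ℕ → ℕ → ℕ) (x : Fin 5 → V) :
    Leaf rel q3 q1 x = leafS q3 q1 (rel (x 0) (x 1)) (rel (x 0) (x 2)) (rel (x 0) (x 3))
      (rel (x 0) (x 4)) (rel (x 1) (x 2)) (rel (x 1) (x 3)) (rel (x 1) (x 4)) (rel (x 2) (x 3))
      (rel (x 2) (x 4)) (rel (x 3) (x 4)) := by
  have h : Leaf rel q3 q1 x = leafG q3 q1 (rel (x 0) (x 1)) (rel (x 1) (x 0)) (rel (x 0) (x 2))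
      (rel (x 2) (x 0)) (rel (x 0) (x 3)) (rel (x 3) (x 0)) (rel (x 0) (x 4)) (rel (x 4) (x 0))
      (rel (x 1) (x 2)) (rel (x 2) (x 1)) (rel (x 1) (x 3)) (rel (x 3) (x 1)) (rel (x 1) (x 4))
      (rel (x 4) (x 1)) (rel (x 2) (x 3)) (rel (x 3) (x 2)) (rel (x 2) (x 4)) (rel (x 4) (x 2))
      (rel (x 3) (x 4)) (rel (x 4) (x 3)) := rfl
  rw [h, hsym (x 1) (x 0), hsym (x 2) (x 0), hsym (x 3) (x 0), hsym (x 4) (x 0),
    hsym (x 2) (x 1), hsym (x 3) (x 1), hsym (x 4) (x 1), hsym (x 3) (x 2), hsym (x 4) (x 2),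
    hsym (x 4) (x 3)]
  rfl

theorem five_boundC {M B : ℕ} {T : ℕ → ℕ} {TK LK r K κ X : ℕ}
    (h : CertC5 M B T TK LK r K κ X)
    {V : Type} [Fintype V] (hn : 0 < Fintype.card V) (rel : V → V → ℕ) (hO : Col rel)
    (hK : ∀ x : Fin 4 → V, Function.Injective x → fourN B (rel (x 0) (x 1)) (rel (x 0) (x 2))
      (rel (x 0) (x 3)) (rel (x 1) (x 2)) (rel (x 1) (x 3)) (rel (x 2) (x 3)) ≠ 4) :
    90 * (K : ℝ) * ((∑ a, ∑ b, ∑ c, (eN B (c3 rel a b c) : ℝ)) / (Fintype.card V : ℝ) ^ 3)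
      ≤ 50 * (K : ℝ) + 10 * (26843545600 + 90 * (K : ℝ)) / (Fintype.card V : ℝ) := by
  have hκ := Nat.eq_of_beq_eq_true h.hκ
  have hX := Nat.eq_of_beq_eq_true h.hX
  simp only [Nat.add_eq, Nat.mul_eq] at hκ hX
  have hpa : ∀ c i, c < 27 → i < 27 → paC c i < 27 := fun c i hc hi =>
    Nat.le_of_ble_eq_true (nall_true (nall_true paC_lt c hc) i hi)
  have hT := h.hT
  choose! L rr hLr using hT
  have hrr : ∀ t < 10, rr t ≤ ∑ s ∈ range 10, rr s := fun t ht =>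
    single_le_sum (f := rr) (fun _ _ => Nat.zero_le _) (mem_range.mpr ht)
  have key := flag5 hn rel hO.1 (∑ s ∈ range 10, rr s) r (50 * (K : ℝ) + 13421772800)
    (26843545600 + 90 * (K : ℝ)) (by positivity) (q3C T B κ)
    (fun c i k => if k < rr (tyC c) then lk (L (tyC c)) (paC c i) k else 32768)
    (q1N TK) (lk LK) 32768 32768 536870912 536870912
    (fun c => (κ : ℤ) * (eN B c : ℤ)) ?_ ?_ ?_ ?_
  · have e : ∑ a, ∑ b, ∑ c, (((κ : ℤ) * (eN B (c3 rel a b c) : ℤ) : ℤ) : ℝ)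
        = 9 * (K : ℝ) * ∑ a, ∑ b, ∑ c, (eN B (c3 rel a b c) : ℝ) := by
      rw [hκ]
      simp only [mul_sum]
      refine sum_congr rfl fun a _ => sum_congr rfl fun b _ => sum_congr rfl fun c _ => ?_
      push_cast
      ring
    rw [e] at key
    push_cast at key
    rw [mul_div_assoc] at key
    linarith
  · intro c i j hc hi hj
    have ht := tyC_lt hc
    rw [pad (hrr _ ht) (fun k => lk (L (tyC c)) (paC c i) k) (fun k => lk (L (tyC c)) (paC c j) k)]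
    unfold q3C
    simp only [Nat.add_eq, Nat.mul_eq]
    push_cast
    have e0 := psB_eq (nall_true (nall_true (hLr _ ht) _ (hpa c i hc hi)) _ (hpa c j hc hj))
    simp only [Nat.add_eq, Nat.mul_eq] at e0
    rw [e0]
  · intro i j hi hj
    exact psB_eq (nall_true (nall_true h.hk i hi) j hj)
  · intro x hx
    have inj4 : ∀ i0 i1 i2 i3 : Fin 5, Function.Injective ![i0, i1, i2, i3] →
        fourN B (rel (x i0) (x i1)) (rel (x i0) (x i2)) (rel (x i0) (x i3)) (rel (x i1) (x i2))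
          (rel (x i1) (x i3)) (rel (x i2) (x i3)) ≠ 4 := fun i0 i1 i2 i3 hi =>
      hK (fun k => x (![i0, i1, i2, i3] k)) (hx.comp hi)
    have ne : ∀ a : ℕ, a ≠ 4 → Nat.beq a 4 = false := fun a ha => by
      cases hb : Nat.beq a 4
      · rfl
      · exact absurd (Nat.eq_of_beq_eq_true hb) ha
    have n1 := ne _ (inj4 0 1 2 3 (by decide))
    have n2 := ne _ (inj4 0 1 2 4 (by decide))
    have n3 := ne _ (inj4 0 1 3 4 (by decide))
    have n4 := ne _ (inj4 0 2 3 4 (by decide))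
    have n5 := ne _ (inj4 1 2 3 4 (by decide))
    have hc := h.hc _ (hO.1 (x 0) (x 1)) _ (hO.1 (x 0) (x 2)) _ (hO.1 (x 1) (x 2))
    have h1 := S3_true (S3_true (S3_true hc (hO.1 (x 0) (x 3))) (hO.1 (x 1) (x 3)))
      (hO.1 (x 2) (x 3))
    rw [n1, cond_false] at h1
    have h2 := S3_true (S3_true (S3_true h1 (hO.1 (x 0) (x 4))) (hO.1 (x 1) (x 4)))
      (hO.1 (x 2) (x 4))
    rw [n2, cond_false] at h2
    have h3 := S3_true h2 (hO.1 (x 3) (x 4))
    rw [n3, n4, n5, cond_false, cond_false, cond_false] at h3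
    have h4 := Nat.le_of_ble_eq_true h3
    rw [← leaf_sym hO.2] at h4
    have h5 : (Leaf rel (q3C T B κ) (q1N TK) x : ℝ) ≤ (X : ℝ) := by exact_mod_cast h4
    rw [hX] at h5
    push_cast at h5
    exact h5
  · intro x
    have b3 : ∀ c i j, q3C T B κ c i j ≤ 1073741824 + 9 * K := by
      intro c i j
      unfold q3C
      simp only [Nat.add_eq, Nat.mul_eq]
      have hb : κ * eN B c ≤ 9 * K := by
        have := eN_le B c
        rw [hκ]
        calc 9 * K * eN B c ≤ 9 * K * 1 := Nat.mul_le_mul_left _ this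
          _ = 9 * K := by ring
      have l0 := t30_lt (T (tyC c)) (27 * paC c i + paC c j)
      omega
    have b1 : ∀ i j, q1N TK i j ≤ 1073741824 := fun i j => (t30_lt _ _).le
    have hL : Leaf rel (q3C T B κ) (q1N TK) x ≤ 10 * (1073741824 + 9 * K)
        + 15 * 1073741824 := by
      unfold Leaf F3 F1
      refine le_trans (add_le_add (add_le_add (b3 _ _ _) (add_le_add (b3 _ _ _)
        (add_le_add (b3 _ _ _) (add_le_add (b3 _ _ _) (add_le_add (b3 _ _ _)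
        (add_le_add (b3 _ _ _) (add_le_add (b3 _ _ _) (add_le_add (b3 _ _ _)
        (add_le_add (b3 _ _ _) (b3 _ _ _))))))))))
        (add_le_add (b1 _ _) (add_le_add (b1 _ _) (add_le_add (b1 _ _) (add_le_add (b1 _ _)
        (add_le_add (b1 _ _) (add_le_add (b1 _ _) (add_le_add (b1 _ _) (add_le_add (b1 _ _)
        (add_le_add (b1 _ _) (add_le_add (b1 _ _) (add_le_add (b1 _ _) (add_le_add (b1 _ _)
        (add_le_add (b1 _ _) (add_le_add (b1 _ _) (b1 _ _)))))))))))))))) ?_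
      omega
    have h5 : (Leaf rel (q3C T B κ) (q1N TK) x : ℝ) ≤
        ((10 * (1073741824 + 9 * K) + 15 * 1073741824 : ℕ) : ℝ) := by exact_mod_cast hL
    push_cast at h5
    have : (0 : ℝ) ≤ (K : ℝ) := by positivity
    linarith

theorem boundC5 {n : ℕ} {M B : ℕ} {T : ℕ → ℕ} {TK LK r K κ X : ℕ}
    (h : CertC5 M B T TK LK r K κ X) (hKp : 262144 ≤ K)
    {rel : Fin n → Fin n → ℕ} (hO : Col rel) {H : Finset (Finset (Fin n))}
    (h3 : ∀ e ∈ H, e.card = 3) (hK : KF H) (hE : EncG B rel H) :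
    (H.card : ℝ) ≤ 5 / 54 * (n : ℝ) ^ 3 + 2000 * (n : ℝ) ^ 2 := by
  rcases Nat.eq_zero_or_pos n with rfl | hn
  · have : H.card = 0 := by
      rw [card_eq_zero, eq_empty_iff_forall_notMem]
      intro e he
      have h5 := h3 e he
      have h6 : e = ∅ := by
        ext v; exact v.elim0
      rw [h6] at h5
      simp at h5
    rw [this]
    norm_num
  · have h1 := five_boundC h (V := Fin n) (by rw [Fintype.card_fin]; exact hn) rel hO
      (no_fourG hE hK)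
    have h2 := card_le_sumG h3 hE
    rw [Fintype.card_fin] at h1
    have hnr : (0 : ℝ) < (n : ℝ) := by exact_mod_cast hn
    have hKr : (262144 : ℝ) ≤ (K : ℝ) := by exact_mod_cast hKp
    have h4 : 6 * (H.card : ℝ) ≤ ∑ a, ∑ b, ∑ c, (eN B (c3 rel a b c) : ℝ) := by
      have h6 : ((6 * (H.card : ℤ) : ℤ) : ℝ) ≤
        ((∑ a, ∑ b, ∑ c, EE rel (fun c => (eN B c : ℤ)) a b c : ℤ) : ℝ) := by exact_mod_cast h2
      push_cast at h6
      exact h6
    obtain ⟨S, hS⟩ : ∃ S, S = ∑ a, ∑ b, ∑ c, (eN B (c3 rel a b c) : ℝ) := ⟨_, rfl⟩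
    rw [← hS] at h1 h4
    have h7 : 90 * (K : ℝ) * S ≤ 50 * (K : ℝ) * (n : ℝ) ^ 3
        + 10 * (26843545600 + 90 * (K : ℝ)) * (n : ℝ) ^ 2 := by
      have h8 := mul_le_mul_of_nonneg_right h1 (by positivity : (0 : ℝ) ≤ (n : ℝ) ^ 3)
      have e1 : 90 * (K : ℝ) * (S / (n : ℝ) ^ 3) * (n : ℝ) ^ 3 = 90 * (K : ℝ) * S := by
        field_simp
      have e2 : (50 * (K : ℝ) + 10 * (26843545600 + 90 * (K : ℝ)) / (n : ℝ)) * (n : ℝ) ^ 3
          = 50 * (K : ℝ) * (n : ℝ) ^ 3 + 10 * (26843545600 + 90 * (K : ℝ)) * (n : ℝ) ^ 2 := by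
        field_simp
      rw [e1, e2] at h8
      exact h8
    have h9 : 10 * (26843545600 + 90 * (K : ℝ)) * (n : ℝ) ^ 2 ≤ (K : ℝ) * 1024900 * (n : ℝ) ^ 2 := by
      have : 10 * (26843545600 + 90 * (K : ℝ)) ≤ (K : ℝ) * 1024900 := by nlinarith
      exact mul_le_mul_of_nonneg_right this (by positivity)
    have h10 : (K : ℝ) * (90 * S) ≤ (K : ℝ) * (50 * (n : ℝ) ^ 3 + 1024900 * (n : ℝ) ^ 2) := by
      linarith
    have h11 := le_of_mul_le_mul_left h10 (by linarith)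
    nlinarith

end Pool.Agent.W38.TC
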