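import Pool.Agent.W38.TC.Kern5

/-! The zero table. -/

set_option autoImplicit false
set_option maxRecDepth 100000

namespace Pool.Agent.W38.TC

open Pool.Agent.W38.TO

theorem tz : chkT TZ 0 0 = true := by decide +kernel

end Pool.Agent.W38.TC
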